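import Pool.Agent.K6.H61.AF.Fam

set_option autoImplicit false

/-! # Bilinear sums of products of two characters over sums of two arbitrary sets of integers -/

namespace Pool.Agent.K6.H61.AF

open Finset

/-- the number of pairs of elements of `A` congruent modulo `p` and modulo `q` -/
def col (A : Finset ℤ) (p q : ℕ) : ℕ :=
  #((A ×ˢ A).filter (fun w : ℤ × ℤ => (w.1 : ZMod p) = (w.2 : ZMod p) ∧ (w.1 : ZMod q) = (w.2 : ZMod q)))

/-- the autocorrelation of a character -/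
lemma autocor (p : ℕ) [Fact p.Prime] (χ : DirichletCharacter ℂ p) (hχ : χ ≠ 1) (b c : ZMod p) :
    ∑ w : ZMod p, χ (w + b) * (starRingEnd ℂ) (χ (w + c)) = (if b = c then (p : ℂ) else 0) - 1 := by
  classical
  have hstar : ∀ a : ZMod p, (starRingEnd ℂ) (χ a) = χ a⁻¹ := by
    intro a
    have := MulChar.star_apply' χ a
    rw [MulChar.inv_apply'] at this
    exact this
  have hs : ∑ w : ZMod p, χ (w + b) * (starRingEnd ℂ) (χ (w + c)) =
      ∑ w : ZMod p, χ (w + (b - c)) * (starRingEnd ℂ) (χ w) := by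
    refine Fintype.sum_equiv (Equiv.addRight c) _ _ fun w => ?_
    simp only [Equiv.coe_addRight]
    have : w + c + (b - c) = w + b := by ring
    rw [this]
  rw [hs]
  have hsum : ∑ a : ZMod p, χ a = 0 := MulChar.sum_eq_zero_of_ne_one hχ
  by_cases hbc : b = c
  · rw [if_pos hbc, hbc, sub_self]
    have h1 : ∀ w : ZMod p, χ (w + 0) * (starRingEnd ℂ) (χ w) = if w = 0 then 0 else 1 := by
      intro w
      rw [add_zero, hstar, ← map_mul]
      split_ifs with h
      · rw [h, zero_mul, MulChar.map_zero]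
      · rw [mul_inv_cancel₀ h, map_one]
    rw [Finset.sum_congr rfl fun w _ => h1 w]
    rw [Finset.sum_ite]
    simp only [Finset.sum_const_zero, zero_add, Finset.sum_const, nsmul_eq_mul, mul_one]
    have h2 : (univ.filter (fun w : ZMod p => ¬ w = 0)) = univ.erase 0 := by
      ext w; simp
    rw [h2, Finset.card_erase_of_mem (Finset.mem_univ _), Finset.card_univ, ZMod.card]
    have hp1 : 1 ≤ p := (Fact.out : p.Prime).one_le
    rw [Nat.cast_sub hp1]
    simp
  · rw [if_neg hbc, zero_sub]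
    set h := b - c with hh
    have hne : h ≠ 0 := sub_ne_zero.2 hbc
    have h1 : ∑ w : ZMod p, χ (w + h) * (starRingEnd ℂ) (χ w) =
        ∑ w ∈ univ.erase (0 : ZMod p), χ (1 + h * w⁻¹) := by
      rw [← Finset.add_sum_erase univ _ (Finset.mem_univ (0 : ZMod p))]
      rw [hstar, inv_zero, MulChar.map_zero, mul_zero, zero_add]
      refine Finset.sum_congr rfl fun w hw => ?_
      have hw0 : w ≠ 0 := Finset.ne_of_mem_erase hw
      rw [hstar, ← map_mul, add_mul, mul_inv_cancel₀ hw0]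
    rw [h1]
    have h2 : ∑ w ∈ univ.erase (0 : ZMod p), χ (1 + h * w⁻¹) = ∑ u ∈ univ.erase (1 : ZMod p), χ u := by
      refine Finset.sum_nbij' (fun w => 1 + h * w⁻¹) (fun u => h * (u - 1)⁻¹) ?_ ?_ ?_ ?_ ?_
      · intro w hw
        have hw0 : w ≠ 0 := Finset.ne_of_mem_erase hw
        simp only [Finset.mem_erase, Finset.mem_univ, and_true]
        intro hcon
        have : h * w⁻¹ = 0 := by linear_combination hcon
        rcases mul_eq_zero.1 this with h3 | h3
        · exact hne h3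
        · exact hw0 (inv_eq_zero.1 h3)
      · intro u hu
        have hu0 : u ≠ 1 := Finset.ne_of_mem_erase hu
        simp only [Finset.mem_erase, Finset.mem_univ, and_true]
        exact mul_ne_zero hne (inv_ne_zero (sub_ne_zero.2 hu0))
      · intro w hw
        have hw0 : w ≠ 0 := Finset.ne_of_mem_erase hw
        field_simp
        ring_nf
        exact mul_inv_cancel₀ hne
      · intro u hu
        have hu0 : u - 1 ≠ 0 := sub_ne_zero.2 (Finset.ne_of_mem_erase hu)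
        field_simp
        ring
      · intro w _
        rfl
    rw [h2]
    have h3 := Finset.add_sum_erase univ (fun u : ZMod p => χ u) (Finset.mem_univ (1 : ZMod p))
    rw [hsum, map_one] at h3
    linear_combination h3

/-- **the bilinear bound** -/
theorem bilin (p q : ℕ) (hp : p.Prime) (hq : q.Prime) (χ : DirichletCharacter ℂ p) (hχ : χ ≠ 1)
    (ψ : DirichletCharacter ℂ q) (hψ : ψ ≠ 1) (A B : Finset ℤ) :
    ‖∑ ω ∈ A ×ˢ B, χ ((ω.1 + ω.2 : ℤ) : ZMod p) * ψ ((ω.1 + ω.2 : ℤ) : ZMod q)‖ ^ 2 ≤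
      (col A p q : ℝ) * ((p : ℝ) * q * col B p q + (#B : ℝ) ^ 2) := by
  classical
  have : Fact p.Prime := ⟨hp⟩
  have : Fact q.Prime := ⟨hq⟩
  -- the inner sum as a function on the product of the residue rings
  set F : ZMod p × ZMod q → ℂ := fun w => ∑ b ∈ B, χ (w.1 + (b : ZMod p)) * ψ (w.2 + (b : ZMod q))
    with hF
  set n : ZMod p × ZMod q → ℝ := fun w =>
    (#(A.filter (fun a : ℤ => ((a : ZMod p), (a : ZMod q)) = w)) : ℝ) with hn
  have e1 : ∑ ω ∈ A ×ˢ B, χ ((ω.1 + ω.2 : ℤ) : ZMod p) * ψ ((ω.1 + ω.2 : ℤ) : ZMod q) =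
      ∑ w : ZMod p × ZMod q, (n w : ℂ) * F w := by
    rw [Finset.sum_product]
    have h1 : ∀ a ∈ A, ∑ b ∈ B, χ ((a + b : ℤ) : ZMod p) * ψ ((a + b : ℤ) : ZMod q) =
        F ((a : ZMod p), (a : ZMod q)) := by
      intro a _
      simp only [hF]
      refine Finset.sum_congr rfl fun b _ => ?_
      push_cast
      rfl
    rw [Finset.sum_congr rfl h1]
    rw [← Finset.sum_fiberwise_of_maps_to (s := A) (t := (univ : Finset (ZMod p × ZMod q)))
      (g := fun a : ℤ => ((a : ZMod p), (a : ZMod q))) (fun _ _ => Finset.mem_univ _)]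
    refine Finset.sum_congr rfl fun w _ => ?_
    rw [Finset.sum_congr rfl (g := fun _ => F w)]
    · rw [Finset.sum_const, nsmul_eq_mul]
      simp only [hn]
      push_cast
      rfl
    · intro a ha
      rw [(mem_filter.1 ha).2]
  have e2 : ∑ w : ZMod p × ZMod q, n w ^ 2 = (col A p q : ℝ) := by
    unfold col
    have h1 : ∀ w : ZMod p × ZMod q, n w ^ 2 =
        (#((A ×ˢ A).filter (fun u : ℤ × ℤ => ((u.1 : ZMod p), (u.1 : ZMod q)) = w ∧
          ((u.2 : ZMod p), (u.2 : ZMod q)) = w)) : ℝ) := by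
      intro w
      simp only [hn]
      rw [sq, ← Nat.cast_mul, ← Finset.card_product]
      congr 2
      ext u
      simp only [mem_filter, mem_product]
      tauto
    rw [Finset.sum_congr rfl fun w _ => h1 w]
    rw [← Nat.cast_sum]
    congr 1
    rw [Finset.card_eq_sum_card_fiberwise (s := (A ×ˢ A).filter (fun w : ℤ × ℤ =>
      (w.1 : ZMod p) = (w.2 : ZMod p) ∧ (w.1 : ZMod q) = (w.2 : ZMod q)))
      (t := (univ : Finset (ZMod p × ZMod q)))
      (f := fun u : ℤ × ℤ => ((u.1 : ZMod p), (u.1 : ZMod q))) (fun _ _ => by simp)]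
    refine Finset.sum_congr rfl fun w _ => ?_
    congr 1
    ext u
    simp only [mem_filter, mem_product]
    constructor
    · rintro ⟨h1, h2, h3⟩
      refine ⟨⟨h1, ?_⟩, h2⟩
      have h4 := h2.trans h3.symm
      simp only [Prod.mk.injEq] at h4
      exact h4
    · rintro ⟨⟨h1, h2, h3⟩, h4⟩
      refine ⟨h1, h4, ?_⟩
      rw [← h4, h2, h3]
  have e3 : ∑ w : ZMod p × ZMod q, ‖F w‖ ^ 2 ≤ (p : ℝ) * q * col B p q + (#B : ℝ) ^ 2 := by
    have h1 : ((∑ w : ZMod p × ZMod q, ‖F w‖ ^ 2 : ℝ) : ℂ) = ∑ u ∈ B ×ˢ B,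
        ((if (u.1 : ZMod p) = (u.2 : ZMod p) then (p : ℂ) else 0) - 1) *
        ((if (u.1 : ZMod q) = (u.2 : ZMod q) then (q : ℂ) else 0) - 1) := by
      have h2 : ∀ w : ZMod p × ZMod q, ((‖F w‖ ^ 2 : ℝ) : ℂ) = ∑ u ∈ B ×ˢ B,
          (χ (w.1 + (u.1 : ZMod p)) * (starRingEnd ℂ) (χ (w.1 + (u.2 : ZMod p)))) *
          (ψ (w.2 + (u.1 : ZMod q)) * (starRingEnd ℂ) (ψ (w.2 + (u.2 : ZMod q)))) := by
        intro w
        rw [← Complex.normSq_eq_norm_sq, ← Complex.mul_conj]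
        simp only [hF]
        rw [map_sum, Finset.sum_mul_sum, Finset.sum_product]
        refine Finset.sum_congr rfl fun b _ => Finset.sum_congr rfl fun c _ => ?_
        rw [map_mul]
        ring
      rw [Complex.ofReal_sum, Finset.sum_congr rfl fun w _ => h2 w, Finset.sum_comm]
      refine Finset.sum_congr rfl fun u _ => ?_
      rw [← autocor p χ hχ, ← autocor q ψ hψ, Finset.sum_mul_sum, ← Finset.univ_product_univ,
        Finset.sum_product]
    have h2 : (∑ w : ZMod p × ZMod q, ‖F w‖ ^ 2 : ℝ) = ∑ u ∈ B ×ˢ B,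
        ((if (u.1 : ZMod p) = (u.2 : ZMod p) then (p : ℝ) else 0) - 1) *
        ((if (u.1 : ZMod q) = (u.2 : ZMod q) then (q : ℝ) else 0) - 1) := by
      apply Complex.ofReal_injective
      rw [h1]
      push_cast
      refine Finset.sum_congr rfl fun u _ => ?_
      split_ifs <;> simp
    rw [h2]
    have hp1 : (1 : ℝ) ≤ p := by exact_mod_cast hp.one_le
    have hq1 : (1 : ℝ) ≤ q := by exact_mod_cast hq.one_le
    calc ∑ u ∈ B ×ˢ B, ((if (u.1 : ZMod p) = (u.2 : ZMod p) then (p : ℝ) else 0) - 1) *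
        ((if (u.1 : ZMod q) = (u.2 : ZMod q) then (q : ℝ) else 0) - 1)
        ≤ ∑ u ∈ B ×ˢ B, ((if (u.1 : ZMod p) = (u.2 : ZMod p) ∧ (u.1 : ZMod q) = (u.2 : ZMod q)
          then (p : ℝ) * q else 0) + 1) := by
          apply Finset.sum_le_sum
          intro u _
          by_cases h3 : (u.1 : ZMod p) = (u.2 : ZMod p) <;>
          by_cases h4 : (u.1 : ZMod q) = (u.2 : ZMod q) <;>
          simp only [h3, h4, if_true, if_false, and_self, and_true, and_false, true_and,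
            false_and] <;> nlinarith
      _ = (p : ℝ) * q * col B p q + (#B : ℝ) ^ 2 := by
          rw [Finset.sum_add_distrib, ← Finset.sum_filter, Finset.sum_const, Finset.sum_const,
            Finset.card_product, nsmul_eq_mul, nsmul_eq_mul]
          unfold col
          push_cast
          ring
  rw [e1]
  have h5 : ‖∑ w : ZMod p × ZMod q, (n w : ℂ) * F w‖ ≤ ∑ w : ZMod p × ZMod q, n w * ‖F w‖ := by
    refine (norm_sum_le _ _).trans (Finset.sum_le_sum fun w _ => ?_)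
    rw [norm_mul, Complex.norm_real, Real.norm_of_nonneg (Nat.cast_nonneg _)]
  calc ‖∑ w : ZMod p × ZMod q, (n w : ℂ) * F w‖ ^ 2
      ≤ (∑ w : ZMod p × ZMod q, n w * ‖F w‖) ^ 2 := by
        apply pow_le_pow_left₀ (norm_nonneg _) h5
    _ ≤ (∑ w : ZMod p × ZMod q, n w ^ 2) * ∑ w : ZMod p × ZMod q, ‖F w‖ ^ 2 :=
        Finset.sum_mul_sq_le_sq_mul_sq _ _ _
    _ ≤ _ := by
        rw [e2]
        exact mul_le_mul_of_nonneg_left e3 (Nat.cast_nonneg _)

/-- collisions over a set of primes -/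
lemma col_sum (A : Finset ℤ) (S : Finset ℕ) (hS : ∀ p ∈ S, p.Prime) (K : ℝ)
    (hA : ∀ a ∈ A, ∀ b ∈ A, a ≠ b → ((a - b).natAbs.primeFactors.card : ℝ) ≤ K) :
    ∑ p ∈ S, ∑ q ∈ S.erase p, (col A p q : ℝ) ≤ (#S : ℝ) ^ 2 * #A + K ^ 2 * (#A : ℝ) ^ 2 := by
  classical
  have h1 : ∑ p ∈ S, ∑ q ∈ S.erase p, (col A p q : ℝ) ≤ ∑ p ∈ S, ∑ q ∈ S, (col A p q : ℝ) := by
    apply Finset.sum_le_sum
    intro p _
    exact Finset.sum_le_sum_of_subset_of_nonneg (Finset.erase_subset _ _)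
      fun _ _ _ => Nat.cast_nonneg _
  refine h1.trans ?_
  have h2 : ∑ p ∈ S, ∑ q ∈ S, (col A p q : ℝ) = ∑ w ∈ A ×ˢ A,
      ((#(S.filter (fun p : ℕ => (w.1 : ZMod p) = (w.2 : ZMod p))) : ℝ)) ^ 2 := by
    have h3 : ∀ p q : ℕ, (col A p q : ℝ) = ∑ w ∈ A ×ˢ A,
        (if (w.1 : ZMod p) = (w.2 : ZMod p) then (1 : ℝ) else 0) *
        (if (w.1 : ZMod q) = (w.2 : ZMod q) then (1 : ℝ) else 0) := by
      intro p q
      unfold col
      rw [Finset.card_filter]
      push_cast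
      refine Finset.sum_congr rfl fun w _ => ?_
      by_cases h3 : (w.1 : ZMod p) = (w.2 : ZMod p) <;>
      by_cases h4 : (w.1 : ZMod q) = (w.2 : ZMod q) <;> simp [h3, h4]
    simp_rw [h3]
    have h4 : ∀ p ∈ S, ∑ q ∈ S, ∑ w ∈ A ×ˢ A,
        (if (w.1 : ZMod p) = (w.2 : ZMod p) then (1 : ℝ) else 0) *
        (if (w.1 : ZMod q) = (w.2 : ZMod q) then (1 : ℝ) else 0) =
        ∑ w ∈ A ×ˢ A, (if (w.1 : ZMod p) = (w.2 : ZMod p) then (1 : ℝ) else 0) *
          ∑ q ∈ S, (if (w.1 : ZMod q) = (w.2 : ZMod q) then (1 : ℝ) else 0) := by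
      intro p _
      rw [Finset.sum_comm]
      refine Finset.sum_congr rfl fun w _ => ?_
      rw [Finset.mul_sum]
    rw [Finset.sum_congr rfl h4, Finset.sum_comm]
    refine Finset.sum_congr rfl fun w _ => ?_
    rw [← Finset.sum_mul, ← Finset.sum_filter, Finset.sum_const, nsmul_eq_mul, mul_one, sq]
  rw [h2]
  have h5 : ∀ w ∈ A ×ˢ A, ((#(S.filter (fun p : ℕ => (w.1 : ZMod p) = (w.2 : ZMod p))) : ℝ)) ^ 2 ≤
      (if w.1 = w.2 then (#S : ℝ) ^ 2 else 0) + K ^ 2 := by
    intro w hw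
    rw [mem_product] at hw
    split_ifs with h
    · have h6 : (#(S.filter (fun p : ℕ => (w.1 : ZMod p) = (w.2 : ZMod p))) : ℝ) ≤ #S := by
        exact_mod_cast card_filter_le _ _
      have h7 : ((#(S.filter (fun p : ℕ => (w.1 : ZMod p) = (w.2 : ZMod p))) : ℝ)) ^ 2 ≤
          (#S : ℝ) ^ 2 := pow_le_pow_left₀ (Nat.cast_nonneg _) h6 2
      have : 0 ≤ K ^ 2 := by positivity
      linarith
    · have h6 := hA w.1 hw.1 w.2 hw.2 h
      have h7 : (#(S.filter (fun p : ℕ => (w.1 : ZMod p) = (w.2 : ZMod p))) : ℝ) ≤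
          ((w.1 - w.2).natAbs.primeFactors.card : ℝ) := by
        have h8 := primeDvd_card (w.1 - w.2) (sub_ne_zero.2 h) S hS
        have h9 : S.filter (fun p : ℕ => (w.1 : ZMod p) = (w.2 : ZMod p)) =
            S.filter (fun p : ℕ => (p : ℤ) ∣ w.1 - w.2) := by
          apply filter_congr
          intro p _
          rw [← ZMod.intCast_zmod_eq_zero_iff_dvd]
          push_cast
          rw [sub_eq_zero]
        rw [h9]
        exact_mod_cast h8
      have h8 : ((#(S.filter (fun p : ℕ => (w.1 : ZMod p) = (w.2 : ZMod p))) : ℝ)) ^ 2 ≤ K ^ 2 :=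
        pow_le_pow_left₀ (Nat.cast_nonneg _) (h7.trans h6) 2
      linarith
  refine (Finset.sum_le_sum h5).trans ?_
  rw [Finset.sum_add_distrib, Finset.sum_const, Finset.card_product, nsmul_eq_mul]
  have h6 : ∑ w ∈ A ×ˢ A, (if w.1 = w.2 then (#S : ℝ) ^ 2 else 0) = (#S : ℝ) ^ 2 * #A := by
    rw [Finset.sum_product]
    have : ∀ a ∈ A, ∑ b ∈ A, (if a = b then (#S : ℝ) ^ 2 else 0) = (#S : ℝ) ^ 2 := by
      intro a ha
      rw [Finset.sum_ite_eq A a (fun _ => (#S : ℝ) ^ 2), if_pos ha]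
    rw [Finset.sum_congr rfl this, Finset.sum_const, nsmul_eq_mul, mul_comm]
  rw [h6]
  push_cast
  apply le_of_eq
  ring

end Pool.Agent.K6.H61.AF
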