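import Pool.Agent.N647.BU.Core

set_option autoImplicit false
set_option maxHeartbeats 4000000

/-! # Burgess' bound for the product of two characters modulo two different primes
(after `Pool.Agent.N647.BU.Core`) -/

namespace Pool.Agent.K6.H61.AF

open Finset Filter
open Pool.Agent.H471R4.BW (Complete Uniq)
open Pool.Agent.N647.BU (sS burc_core sS_add)

/-- Burgess' bound for a modulus `q` and a character with square root cancellation in complete sums,
`q ^ (1/4 + η) ≤ X ≤ q ^ (1/2 + δ)` -/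
theorem burN0 (η : ℝ) (hη : 0 < η) (r : ℕ) (hr1' : 1 ≤ r) (hrη : 1 / (2 * (r : ℝ)) ≤ η) (K : ℝ)
    (hK : 0 ≤ K) : ∃ δ : ℝ, 0 < δ ∧ ∀ᶠ q : ℕ in atTop,
    ∀ [NeZero q] (χ : DirichletCharacter ℂ q),
      (∀ B : ℕ, (B : ℝ) ≤ 2 * (q : ℝ) ^ (1 / (2 * (r : ℝ))) → Complete q χ r B K) →
      ∀ (c : ZMod q) (X : ℕ), (q : ℝ) ^ (1 / 4 + η) ≤ X →
      (X : ℝ) ≤ (q : ℝ) ^ (1 / 2 + δ) → ‖sS q χ c X‖ ≤ (q : ℝ) ^ (-δ) * X := by
  have hr1 : (1 : ℝ) ≤ r := by exact_mod_cast hr1'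
  set δ : ℝ := min (1 / 8) (min (η / (2 * (2 * r + 1))) (1 / (4 * (r : ℝ)))) with hδ
  have hδ0 : 0 < δ := by
    apply lt_min (by norm_num)
    apply lt_min <;> positivity
  have hδ8 : δ ≤ 1 / 8 := min_le_left _ _
  have hδη : δ ≤ η / (2 * (2 * r + 1)) := (min_le_right _ _).trans (min_le_left _ _)
  have hδr : δ ≤ 1 / (4 * (r : ℝ)) := (min_le_right _ _).trans (min_le_right _ _)
  refine ⟨δ, hδ0, ?_⟩
  have tc : Tendsto (fun q : ℕ => (q : ℝ)) atTop atTop := tendsto_natCast_atTop_atTop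
  have f1 : ∀ᶠ x : ℝ in atTop, 6400 ≤ x ^ (1 / 8 : ℝ) :=
    (tendsto_rpow_atTop (by norm_num : (0 : ℝ) < 1 / 8)).eventually_ge_atTop _
  have f2 : ∀ᶠ x : ℝ in atTop, 256 * Real.log x ^ 2 ≤ x ^ (1 / 8 : ℝ) := by
    have h1 := (isLittleO_log_rpow_rpow_atTop (2 : ℝ) (show (0 : ℝ) < 1 / 8 by norm_num)).def
      (show (0 : ℝ) < 1 / 256 by norm_num)
    filter_upwards [h1, eventually_ge_atTop 1] with x hx hx1
    have h2 : 0 ≤ Real.log x := Real.log_nonneg hx1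
    rw [Real.norm_eq_abs, Real.norm_eq_abs, abs_of_nonneg (by positivity), abs_of_nonneg (by positivity)] at hx
    have h3 : Real.log x ^ (2 : ℝ) = Real.log x ^ 2 := by
      rw [← Real.rpow_natCast]; norm_num
    rw [h3] at hx
    linarith
  have f3 : ∀ᶠ x : ℝ in atTop, 4 * ((r : ℝ) ^ (2 * r) + K) * 128 * 2 ^ (2 * r) * Real.log x ≤ x ^ (η / 2) := by
    set c : ℝ := 4 * ((r : ℝ) ^ (2 * r) + K) * 128 * 2 ^ (2 * r) with hc
    have hc0 : 0 < c := by positivity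
    have h1 := (isLittleO_log_rpow_atTop (show (0 : ℝ) < η / 2 by positivity)).def
      (show (0 : ℝ) < 1 / c by positivity)
    filter_upwards [h1, eventually_ge_atTop 1] with x hx hx1
    have h2 : 0 ≤ Real.log x := Real.log_nonneg hx1
    rw [Real.norm_eq_abs, Real.norm_eq_abs, abs_of_nonneg h2, abs_of_nonneg (by positivity)] at hx
    calc c * Real.log x ≤ c * (1 / c * x ^ (η / 2)) := by gcongr
      _ = x ^ (η / 2) := by field_simp
  filter_upwards [tc.eventually f1, tc.eventually f2, tc.eventually f3, eventually_ge_atTop 3]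
    with q g1 g2 g3 hq3
  intro _ χ hC c X hX1 hX2
  have hq3r : (3 : ℝ) ≤ q := by exact_mod_cast hq3
  have hq0 : (0 : ℝ) < q := by linarith
  have hq1 : (1 : ℝ) ≤ q := by linarith
  have hdl : (q : ℝ) ^ (1 / 8 : ℝ) ≤ (q : ℝ) ^ (-δ) * (q : ℝ) ^ (1 / 4 : ℝ) := by
    rw [← Real.rpow_add hq0]
    exact Real.rpow_le_rpow_of_exponent_le hq1 (by linarith)
  have hdel1 : (q : ℝ) ^ (-δ) ≤ 1 := Real.rpow_le_one_of_one_le_of_nonpos hq1 (by linarith)
  apply burc_core ((q : ℝ) ^ (-δ)) η K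
    (Real.rpow_pos_of_pos hq0 _) hdel1 hη hK r hr1' hrη q hq3r
  · linarith
  · linarith
  · have h1 : ((q : ℝ) ^ (-δ) / 2) ^ (2 * r) * (q : ℝ) ^ (-δ) = (q : ℝ) ^ (-((2 * r + 1) * δ)) / 2 ^ (2 * r) := by
      rw [div_pow, ← Real.rpow_natCast ((q : ℝ) ^ (-δ)), ← Real.rpow_mul hq0.le, div_mul_eq_mul_div, ← Real.rpow_add hq0]
      congr 2
      push_cast
      ring
    rw [h1]
    have h2 : (q : ℝ) ^ (η / 2) ≤ (q : ℝ) ^ (-((2 * r + 1) * δ)) * (q : ℝ) ^ η := by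
      rw [← Real.rpow_add hq0]
      apply Real.rpow_le_rpow_of_exponent_le hq1
      have h3 : (2 * (r : ℝ) + 1) * δ ≤ (2 * r + 1) * (η / (2 * (2 * r + 1))) := by gcongr
      have h4 : (2 * (r : ℝ) + 1) * (η / (2 * (2 * r + 1))) = η / 2 := by field_simp
      linarith
    rw [div_mul_eq_mul_div, le_div_iff₀ (by positivity)]
    calc 4 * ((r : ℝ) ^ (2 * r) + K) * 128 * Real.log q * 2 ^ (2 * r)
        = 4 * ((r : ℝ) ^ (2 * r) + K) * 128 * 2 ^ (2 * r) * Real.log q := by ring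
      _ ≤ (q : ℝ) ^ (η / 2) := g3
      _ ≤ _ := h2
  · exact hC
  · exact hX1
  · calc (X : ℝ) ^ 2 ≤ ((q : ℝ) ^ (1 / 2 + δ)) ^ 2 := pow_le_pow_left₀ (by positivity) hX2 2
      _ = (q : ℝ) ^ (1 + 2 * δ) := by
          rw [← Real.rpow_natCast, ← Real.rpow_mul hq0.le]
          congr 1
          push_cast
          ring
      _ ≤ (q : ℝ) ^ (1 + 1 / (2 * (r : ℝ))) := by
          apply Real.rpow_le_rpow_of_exponent_le hq1
          have h5 : 2 * (1 / (4 * (r : ℝ))) = 1 / (2 * (r : ℝ)) := by field_simp; ring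
          linarith
      _ = q * (q : ℝ) ^ (1 / (2 * (r : ℝ))) := by rw [Real.rpow_add hq0, Real.rpow_one]

/-- Burgess' bound for all lengths `X ≥ q ^ (1/4 + η)`, `η ≤ 1/8` -/
theorem burN (η : ℝ) (hη'0 : 0 < η) (hη'2 : η ≤ 1 / 8) (r : ℕ) (hr1' : 1 ≤ r)
    (hrη : 1 / (2 * (r : ℝ)) ≤ η) (K : ℝ)
    (hK : 0 ≤ K) : ∃ δ : ℝ, 0 < δ ∧ ∀ᶠ q : ℕ in atTop,
    ∀ [NeZero q] (χ : DirichletCharacter ℂ q),
      (∀ B : ℕ, (B : ℝ) ≤ 2 * (q : ℝ) ^ (1 / (2 * (r : ℝ))) → Complete q χ r B K) →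
      ∀ (c : ZMod q) (X : ℕ), (q : ℝ) ^ (1 / 4 + η) ≤ X → ‖sS q χ c X‖ ≤ (q : ℝ) ^ (-δ) * X := by
  obtain ⟨δ, hδ, h⟩ := burN0 η hη'0 r hr1' hrη K hK
  refine ⟨δ, hδ, ?_⟩
  have tc : Tendsto (fun q : ℕ => (q : ℝ)) atTop atTop := tendsto_natCast_atTop_atTop
  have f1 : ∀ᶠ x : ℝ in atTop, 4 ≤ x ^ (1 / 8 : ℝ) :=
    (tendsto_rpow_atTop (by norm_num : (0 : ℝ) < 1 / 8)).eventually_ge_atTop _
  filter_upwards [h, tc.eventually f1, eventually_ge_atTop 3] with q hq g1 hq3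
  intro _ χ hC c X hX
  have hq1 : (1 : ℝ) ≤ q := by
    have : (3 : ℝ) ≤ q := by exact_mod_cast hq3
    linarith
  have hq0 : (0 : ℝ) < q := by linarith
  set Y : ℕ := ⌈(q : ℝ) ^ (1 / 4 + η)⌉₊ with hY
  have hpos : 1 ≤ (q : ℝ) ^ (1 / 4 + η) := Real.one_le_rpow hq1 (by linarith)
  have hY1 : (q : ℝ) ^ (1 / 4 + η) ≤ Y := Nat.le_ceil _
  have hY2 : (Y : ℝ) ≤ 2 * (q : ℝ) ^ (1 / 4 + η) := by
    have := (Nat.ceil_lt_add_one (by linarith : (0 : ℝ) ≤ (q : ℝ) ^ (1 / 4 + η))).le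
    linarith
  have hY4 : 2 * (Y : ℝ) ≤ (q : ℝ) ^ (1 / 2 + δ) := by
    calc 2 * (Y : ℝ) ≤ 4 * (q : ℝ) ^ (1 / 4 + η) := by linarith
      _ ≤ (q : ℝ) ^ (1 / 8 : ℝ) * (q : ℝ) ^ (1 / 4 + η) := by gcongr
      _ = (q : ℝ) ^ (1 / 8 + (1 / 4 + η)) := by rw [← Real.rpow_add hq0]
      _ ≤ _ := Real.rpow_le_rpow_of_exponent_le hq1 (by linarith)
  have hYpos : 0 < Y := by
    have : (0 : ℝ) < Y := by linarith
    exact_mod_cast this
  have key : ∀ X : ℕ, Y ≤ X → ∀ c : ZMod q, ‖sS q χ c X‖ ≤ (q : ℝ) ^ (-δ) * X := by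
    intro X
    induction X using Nat.strong_induction_on with
    | _ X ih =>
      intro hX c
      by_cases hX2 : X ≤ 2 * Y
      · refine hq χ hC c X (hY1.trans (by exact_mod_cast hX)) (le_trans ?_ hY4)
        exact_mod_cast hX2
      · push Not at hX2
        obtain ⟨Z, rfl⟩ : ∃ Z, X = Y + Z := ⟨X - Y, by omega⟩
        rw [sS_add]
        have h1 := ih Y (by omega) le_rfl c
        have h2 := ih Z (by omega) (by omega) (c + (Y : ZMod q))
        push_cast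
        calc ‖sS q χ c Y + sS q χ (c + (Y : ZMod q)) Z‖ ≤ _ := norm_add_le _ _
          _ ≤ (q : ℝ) ^ (-δ) * Y + (q : ℝ) ^ (-δ) * Z := add_le_add h1 h2
          _ = _ := by ring
  apply key
  exact Nat.ceil_le.mpr hX

/-- the product of two characters modulo different primes -/
noncomputable def prodC (p q : ℕ) (χ : DirichletCharacter ℂ p) (ψ : DirichletCharacter ℂ q) :
    DirichletCharacter ℂ (p * q) :=
  DirichletCharacter.changeLevel (dvd_mul_right p q) χ *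
    DirichletCharacter.changeLevel (dvd_mul_left q p) ψ

lemma prodC_eq (p q : ℕ) [Fact p.Prime] [Fact q.Prime] (hpq : p ≠ q)
    (χ : DirichletCharacter ℂ p) (ψ : DirichletCharacter ℂ q) (x : ZMod (p * q)) :
    prodC p q χ ψ x = χ (ZMod.castHom (dvd_mul_right p q) (ZMod p) x) *
      ψ (ZMod.castHom (dvd_mul_left q p) (ZMod q) x) := by
  have hp : p.Prime := Fact.out
  have hq : q.Prime := Fact.out
  by_cases hx : IsUnit x
  · obtain ⟨u, rfl⟩ := hx
    unfold prodC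
    rw [MulChar.mul_apply, DirichletCharacter.changeLevel_eq_cast_of_dvd,
      DirichletCharacter.changeLevel_eq_cast_of_dvd]
    rfl
  · rw [MulChar.map_nonunit _ hx]
    have : NeZero (p * q) := ⟨mul_ne_zero hp.ne_zero hq.ne_zero⟩
    have hcop : Nat.Coprime p q := (Nat.coprime_primes hp hq).2 hpq
    have h1 : ¬ Nat.Coprime x.val (p * q) := by
      intro h
      apply hx
      have := (ZMod.isUnit_iff_coprime x.val (p * q)).2 h
      rwa [ZMod.natCast_zmod_val] at this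
    rw [Nat.coprime_mul_iff_right, not_and_or] at h1
    have hxv : (x.val : ZMod (p * q)) = x := ZMod.natCast_zmod_val x
    rcases h1 with h1 | h1
    · have h2 : p ∣ x.val := by
        rw [Nat.coprime_comm] at h1
        exact (Nat.Prime.dvd_iff_not_coprime hp).2 h1
      have h3 : ZMod.castHom (dvd_mul_right p q) (ZMod p) x = 0 := by
        rw [← hxv, map_natCast]
        exact (ZMod.natCast_eq_zero_iff _ _).2 h2
      rw [h3, MulChar.map_zero, zero_mul]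
    · have h2 : q ∣ x.val := by
        rw [Nat.coprime_comm] at h1
        exact (Nat.Prime.dvd_iff_not_coprime hq).2 h1
      have h3 : ZMod.castHom (dvd_mul_left q p) (ZMod q) x = 0 := by
        rw [← hxv, map_natCast]
        exact (ZMod.natCast_eq_zero_iff _ _).2 h2
      rw [h3, MulChar.map_zero, mul_zero]

/-- complete sums -/
lemma prod_complete (p q : ℕ) [Fact p.Prime] [Fact q.Prime] (hpq : p ≠ q)
    (χ : DirichletCharacter ℂ p) (ψ : DirichletCharacter ℂ q) (r B : ℕ) (K : ℝ) (hK : 0 ≤ K)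
    [NeZero (p * q)]
    (h1 : Complete p χ r B K) (h2 : Complete q ψ r B K) : Complete (p * q) (prodC p q χ ψ) r B (K ^ 2) := by
  intro b c hb hc hu
  have hp : p.Prime := Fact.out
  have hq : q.Prime := Fact.out
  have hcop : Nat.Coprime p q := (Nat.coprime_primes hp hq).2 hpq
  set f : ZMod p → ℂ := fun x => (∏ i, χ (x + (b i : ZMod p))) *
      ∏ i, (starRingEnd ℂ) (χ (x + (c i : ZMod p))) with hf
  set g : ZMod q → ℂ := fun x => (∏ i, ψ (x + (b i : ZMod q))) *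
      ∏ i, (starRingEnd ℂ) (ψ (x + (c i : ZMod q))) with hg
  have e : ∑ x : ZMod (p * q), (∏ i, prodC p q χ ψ (x + (b i : ZMod (p * q)))) *
      ∏ i, (starRingEnd ℂ) (prodC p q χ ψ (x + (c i : ZMod (p * q)))) =
      (∑ x, f x) * ∑ y, g y := by
    rw [Finset.sum_mul_sum, ← Finset.sum_product', Finset.univ_product_univ]
    refine Fintype.sum_equiv (ZMod.chineseRemainder hcop).toEquiv _ _ fun x => ?_
    have e1 : ((ZMod.chineseRemainder hcop).toEquiv x).1 =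
        ZMod.castHom (dvd_mul_right p q) (ZMod p) x :=
      DFunLike.congr_fun (Subsingleton.elim ((RingHom.fst (ZMod p) (ZMod q)).comp
        (ZMod.chineseRemainder hcop : ZMod (p * q) →+* ZMod p × ZMod q))
        (ZMod.castHom (dvd_mul_right p q) (ZMod p))) x
    have e2 : ((ZMod.chineseRemainder hcop).toEquiv x).2 =
        ZMod.castHom (dvd_mul_left q p) (ZMod q) x :=
      DFunLike.congr_fun (Subsingleton.elim ((RingHom.snd (ZMod p) (ZMod q)).comp
        (ZMod.chineseRemainder hcop : ZMod (p * q) →+* ZMod p × ZMod q))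
        (ZMod.castHom (dvd_mul_left q p) (ZMod q))) x
    rw [e1, e2]
    simp only [hf, hg]
    simp_rw [prodC_eq p q hpq, map_add, map_natCast, map_mul, Finset.prod_mul_distrib]
    ring
  rw [e, norm_mul]
  have h3 := h1 b c hb hc hu
  have h4 := h2 b c hb hc hu
  have e3 : K ^ 2 * Real.sqrt ((p * q : ℕ) : ℝ) = (K * Real.sqrt p) * (K * Real.sqrt q) := by
    push_cast
    rw [Real.sqrt_mul (Nat.cast_nonneg _)]
    ring
  rw [e3]
  exact mul_le_mul h3 h4 (norm_nonneg _) (by positivity)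

end Pool.Agent.K6.H61.AF
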