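import Pool.Agent.N430.PS.Weak

set_option autoImplicit false

/-! # Artin's conjecture on average over a family of integers with small pair correlations

`Ω` is a finite family of integers `v ω`. The variance over the family of the number of primes of a set
modulo which `B v^r` is a primitive root is bounded in terms of the sums over the family of the
products of two characters modulo two different primes. -/

namespace Pool.Agent.K6.H61.AF

open Finset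
open Pool.Agent.H730R2.AA (NT)
open Pool.Agent.N430.PS (G G_nonneg G_le_one cntP EE PB expandR)

/-- the indicator function -/
noncomputable def fZ (B : ℤ) (r p : ℕ) (n : ℤ) : ℝ := by
  classical
  exact if orderOf ((B * n ^ r : ℤ) : ZMod p) = p - 1 then 1 else 0

/-- the centred indicator function -/
noncomputable def kZ (B : ℤ) (r p : ℕ) (n : ℤ) : ℝ :=
  fZ B r p n - (if (p : ℤ) ∣ n then 0 else G B r p)

lemma fZ_01 (B : ℤ) (r p : ℕ) (n : ℤ) : 0 ≤ fZ B r p n ∧ fZ B r p n ≤ 1 := by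
  unfold fZ
  split_ifs <;> norm_num

lemma kZ_abs (B : ℤ) (r p : ℕ) (n : ℤ) (hp : p.Prime) : |kZ B r p n| ≤ 1 := by
  have h1 := fZ_01 B r p n
  have h2 := G_nonneg B r p hp.one_le
  have h3 := G_le_one B r p hp
  unfold kZ
  rw [abs_le]
  split_ifs
  · constructor <;> linarith [h1.1, h1.2]
  · constructor <;> linarith [h1.1, h1.2]

theorem expandZ (p : ℕ) (hp : p.Prime) (B : ℤ) (r : ℕ) (hr : r ≠ 0) :
    ∃ β : DirichletCharacter ℂ p → ℂ,
      (∀ n : ℤ, ((kZ B r p n : ℝ) : ℂ) = ∑ χ ∈ NT p, β χ * χ (n : ZMod p)) ∧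
      ∑ χ ∈ NT p, ‖β χ‖ ≤ ((p - 1).divisors.card : ℝ) := by
  classical
  have : Fact p.Prime := ⟨hp⟩
  obtain ⟨β, h1, h2, -⟩ := expandR p B r hr
  refine ⟨β, fun n => ?_, ?_⟩
  · have h := h1 ((n : ZMod p).val)
    have e0 : (((n : ZMod p).val : ℕ) : ZMod p) = (n : ZMod p) := ZMod.natCast_zmod_val _
    have e1 : ((B * (((n : ZMod p).val : ℕ) : ℤ) ^ r : ℤ) : ZMod p) = ((B * n ^ r : ℤ) : ZMod p) := by
      push_cast
      rw [e0]
    have e2 : p ∣ (n : ZMod p).val ↔ (p : ℤ) ∣ n := by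
      rw [← ZMod.natCast_eq_zero_iff, e0, ZMod.intCast_zmod_eq_zero_iff_dvd]
    rw [e1, e0] at h
    unfold kZ fZ
    rw [Complex.ofReal_sub]
    have h5 : (((if orderOf ((B * n ^ r : ℤ) : ZMod p) = p - 1 then (1 : ℝ) else 0 : ℝ)) : ℂ) =
        if orderOf (((B * n ^ r : ℤ)) : ZMod p) = p - 1 then (1 : ℂ) else 0 := by
      split_ifs <;> simp
    rw [h5, h]
    by_cases hd : (p : ℤ) ∣ n
    · rw [if_pos (e2.2 hd), if_pos hd]
      simp
    · rw [if_neg (fun h' => hd (e2.1 h')), if_neg hd]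
      simp
  · refine le_trans ?_ h2
    exact Finset.sum_le_sum_of_subset_of_nonneg (Finset.subset_univ _) fun _ _ _ => norm_nonneg _

/-- one pair of primes -/
lemma pair_le {ι : Type*} (Ω : Finset ι) (v : ι → ℤ) (B : ℤ) (r : ℕ) (hr : r ≠ 0) (p q : ℕ)
    (hp : p.Prime) (hq : q.Prime) (Δ : ℝ) (hΔ0 : 0 ≤ Δ)
    (hΔ : ∀ χ : DirichletCharacter ℂ p, χ ≠ 1 → ∀ ψ : DirichletCharacter ℂ q, ψ ≠ 1 →
      ‖∑ ω ∈ Ω, χ (v ω : ZMod p) * ψ (v ω : ZMod q)‖ ≤ Δ) :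
    ∑ ω ∈ Ω, kZ B r p (v ω) * kZ B r q (v ω) ≤
      ((p - 1).divisors.card : ℝ) * ((q - 1).divisors.card : ℝ) * Δ := by
  classical
  obtain ⟨β, h1, h2⟩ := expandZ p hp B r hr
  obtain ⟨γ, h3, h4⟩ := expandZ q hq B r hr
  have e : ((∑ ω ∈ Ω, kZ B r p (v ω) * kZ B r q (v ω) : ℝ) : ℂ) =
      ∑ χ ∈ NT p, ∑ ψ ∈ NT q, β χ * γ ψ * ∑ ω ∈ Ω, χ (v ω : ZMod p) * ψ (v ω : ZMod q) := by
    push_cast
    simp_rw [h1, h3, Finset.sum_mul_sum, Finset.mul_sum]
    rw [Finset.sum_comm]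
    refine Finset.sum_congr rfl fun χ _ => ?_
    rw [Finset.sum_comm]
    refine Finset.sum_congr rfl fun ψ _ => ?_
    refine Finset.sum_congr rfl fun ω _ => ?_
    ring
  have hle : ∑ ω ∈ Ω, kZ B r p (v ω) * kZ B r q (v ω) ≤
      ‖((∑ ω ∈ Ω, kZ B r p (v ω) * kZ B r q (v ω) : ℝ) : ℂ)‖ := by
    rw [Complex.norm_real]
    exact le_abs_self _
  refine hle.trans ?_
  rw [e]
  have hNT : ∀ (m : ℕ) (χ : DirichletCharacter ℂ m), χ ∈ NT m → χ ≠ 1 := by
    intro m χ hχ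
    unfold NT at hχ
    exact (mem_filter.1 hχ).2
  calc ‖∑ χ ∈ NT p, ∑ ψ ∈ NT q, β χ * γ ψ * ∑ ω ∈ Ω, χ (v ω : ZMod p) * ψ (v ω : ZMod q)‖
      ≤ ∑ χ ∈ NT p, ∑ ψ ∈ NT q, ‖β χ‖ * ‖γ ψ‖ * Δ := by
        refine (norm_sum_le _ _).trans (Finset.sum_le_sum fun χ hχ => ?_)
        refine (norm_sum_le _ _).trans (Finset.sum_le_sum fun ψ hψ => ?_)
        rw [norm_mul, norm_mul]
        exact mul_le_mul_of_nonneg_left (hΔ χ (hNT p χ hχ) ψ (hNT q ψ hψ)) (by positivity)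
    _ = (∑ χ ∈ NT p, ‖β χ‖) * (∑ ψ ∈ NT q, ‖γ ψ‖) * Δ := by
        rw [Finset.sum_mul_sum, Finset.sum_mul]
        refine Finset.sum_congr rfl fun χ _ => ?_
        rw [Finset.sum_mul]
    _ ≤ ((p - 1).divisors.card : ℝ) * ((q - 1).divisors.card : ℝ) * Δ := by
        apply mul_le_mul_of_nonneg_right _ hΔ0
        exact mul_le_mul h2 h4 (Finset.sum_nonneg fun _ _ => norm_nonneg _) (Nat.cast_nonneg _)

/-- the variance -/
theorem var_le {ι : Type*} (Ω : Finset ι) (v : ι → ℤ) (B : ℤ) (r : ℕ) (hr : r ≠ 0) (S : Finset ℕ)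
    (hS : ∀ p ∈ S, p.Prime) (Δ : ℕ → ℕ → ℝ) (hΔ0 : ∀ p q, 0 ≤ Δ p q)
    (hΔ : ∀ p ∈ S, ∀ q ∈ S, p ≠ q → ∀ χ : DirichletCharacter ℂ p, χ ≠ 1 →
      ∀ ψ : DirichletCharacter ℂ q, ψ ≠ 1 →
      ‖∑ ω ∈ Ω, χ (v ω : ZMod p) * ψ (v ω : ZMod q)‖ ≤ Δ p q) :
    ∑ ω ∈ Ω, (∑ p ∈ S, kZ B r p (v ω)) ^ 2 ≤ (#S : ℝ) * #Ω +
      ∑ p ∈ S, ∑ q ∈ S.erase p, ((p - 1).divisors.card : ℝ) * ((q - 1).divisors.card : ℝ) * Δ p q := by
  classical
  have e : ∑ ω ∈ Ω, (∑ p ∈ S, kZ B r p (v ω)) ^ 2 =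
      ∑ p ∈ S, ∑ q ∈ S, ∑ ω ∈ Ω, kZ B r p (v ω) * kZ B r q (v ω) := by
    have h1 : ∀ ω ∈ Ω, (∑ p ∈ S, kZ B r p (v ω)) ^ 2 =
        ∑ p ∈ S, ∑ q ∈ S, kZ B r p (v ω) * kZ B r q (v ω) := by
      intro ω _
      rw [sq, Finset.sum_mul_sum]
    rw [Finset.sum_congr rfl h1, Finset.sum_comm]
    refine Finset.sum_congr rfl fun p _ => ?_
    rw [Finset.sum_comm]
  rw [e]
  have h2 : ∀ p ∈ S, ∑ q ∈ S, ∑ ω ∈ Ω, kZ B r p (v ω) * kZ B r q (v ω) ≤ #Ω +
      ∑ q ∈ S.erase p, ((p - 1).divisors.card : ℝ) * ((q - 1).divisors.card : ℝ) * Δ p q := by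
    intro p hp
    rw [← Finset.add_sum_erase S _ hp]
    apply add_le_add
    · calc ∑ ω ∈ Ω, kZ B r p (v ω) * kZ B r p (v ω) ≤ ∑ ω ∈ Ω, (1 : ℝ) := by
            apply Finset.sum_le_sum
            intro ω _
            have h := kZ_abs B r p (v ω) (hS p hp)
            rw [← abs_mul_abs_self]
            have h0 := abs_nonneg (kZ B r p (v ω))
            nlinarith
        _ = #Ω := by simp
    · apply Finset.sum_le_sum
      intro q hq
      rw [Finset.mem_erase] at hq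
      exact pair_le Ω v B r hr p q (hS p hp) (hS q hq.2) (Δ p q) (hΔ0 p q)
        (hΔ p hp q hq.2 (Ne.symm hq.1))
  calc ∑ p ∈ S, ∑ q ∈ S, ∑ ω ∈ Ω, kZ B r p (v ω) * kZ B r q (v ω)
      ≤ ∑ p ∈ S, ((#Ω : ℝ) + ∑ q ∈ S.erase p,
        ((p - 1).divisors.card : ℝ) * ((q - 1).divisors.card : ℝ) * Δ p q) := Finset.sum_le_sum h2
    _ = _ := by
      rw [Finset.sum_add_distrib, Finset.sum_const, nsmul_eq_mul]

/-- the primes in `(y, x]` -/
def PI (y x : ℕ) : Finset ℕ := (Ioc y x).filter Nat.Prime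

lemma cntZ_eq (B : ℤ) (r : ℕ) (n : ℤ) (x : ℕ) :
    (cntP (B * n ^ r) x : ℝ) = ∑ p ∈ PB (x + 1), fZ B r p n := by
  classical
  unfold cntP fZ PB
  rw [← Finset.filter_filter, Finset.card_filter, Nat.cast_sum]
  refine Finset.sum_congr rfl fun p _ => ?_
  split_ifs <;> simp

lemma primeDvd_card (n : ℤ) (hn : n ≠ 0) (S : Finset ℕ) (hS : ∀ p ∈ S, p.Prime) :
    #(S.filter (fun p : ℕ => (p : ℤ) ∣ n)) ≤ n.natAbs.primeFactors.card := by
  apply card_le_card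
  intro p hp
  rw [mem_filter] at hp
  rw [Nat.mem_primeFactors]
  exact ⟨hS p hp.1, Int.natCast_dvd.1 hp.2, by simpa using hn⟩

/-- from the sum over the large primes to the count -/
lemma diffZ (B : ℤ) (r : ℕ) (n : ℤ) (hn : n ≠ 0) (y x : ℕ) (hyx : y ≤ x) :
    |(cntP (B * n ^ r) x : ℝ) - EE B r x| ≤
      |∑ p ∈ PI y x, kZ B r p n| + y + n.natAbs.primeFactors.card := by
  classical
  have hsplit : PB (x + 1) = PB (y + 1) ∪ PI y x := by
    ext p
    simp only [PB, PI, mem_union, mem_filter, mem_range, mem_Ioc]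
    constructor
    · rintro ⟨h1, h2⟩
      by_cases h : p < y + 1
      · exact Or.inl ⟨h, h2⟩
      · exact Or.inr ⟨⟨by omega, by omega⟩, h2⟩
    · rintro (⟨h1, h2⟩ | ⟨⟨h1, h3⟩, h2⟩)
      · exact ⟨by omega, h2⟩
      · exact ⟨by omega, h2⟩
  have hdisj : Disjoint (PB (y + 1)) (PI y x) := by
    rw [Finset.disjoint_left]
    intro p hp hp2
    simp only [PB, PI, mem_filter, mem_range, mem_Ioc] at hp hp2
    omega
  have h1 : (cntP (B * n ^ r) x : ℝ) - EE B r x =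
      ∑ p ∈ PB (y + 1), (fZ B r p n - G B r p) + (∑ p ∈ PI y x, kZ B r p n -
        ∑ p ∈ PI y x, (if (p : ℤ) ∣ n then G B r p else 0)) := by
    rw [cntZ_eq, EE, ← Finset.sum_sub_distrib, hsplit, Finset.sum_union hdisj,
      ← Finset.sum_sub_distrib]
    congr 1
    refine Finset.sum_congr rfl fun p _ => ?_
    unfold kZ
    split_ifs <;> ring
  have h2 : |∑ p ∈ PB (y + 1), (fZ B r p n - G B r p)| ≤ y := by
    refine (Finset.abs_sum_le_sum_abs _ _).trans ?_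
    have h3 : ∀ p ∈ PB (y + 1), |fZ B r p n - G B r p| ≤ 1 := by
      intro p hp
      simp only [PB, mem_filter] at hp
      have a1 := fZ_01 B r p n
      have a2 := G_nonneg B r p hp.2.one_le
      have a3 := G_le_one B r p hp.2
      rw [abs_le]
      constructor <;> linarith [a1.1, a1.2]
    refine (Finset.sum_le_sum h3).trans ?_
    rw [Finset.sum_const, nsmul_eq_mul, mul_one]
    have h4 : #(PB (y + 1)) ≤ y := by
      have h5 : PB (y + 1) ⊆ Icc 1 y := by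
        intro p hp
        simp only [PB, mem_filter, mem_range] at hp
        rw [mem_Icc]
        exact ⟨hp.2.one_le, by omega⟩
      have := card_le_card h5
      simpa using this
    exact_mod_cast h4
  have h3 : |∑ p ∈ PI y x, (if (p : ℤ) ∣ n then G B r p else 0)| ≤
      (n.natAbs.primeFactors.card : ℝ) := by
    have hPr : ∀ p ∈ PI y x, p.Prime := fun p hp => (mem_filter.1 hp).2
    rw [abs_of_nonneg]
    · rw [← Finset.sum_filter]
      calc ∑ p ∈ (PI y x).filter (fun p : ℕ => (p : ℤ) ∣ n), G B r p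
          ≤ ∑ p ∈ (PI y x).filter (fun p : ℕ => (p : ℤ) ∣ n), (1 : ℝ) := by
            apply Finset.sum_le_sum
            intro p hp
            exact G_le_one B r p (hPr p (mem_filter.1 hp).1)
        _ = (#((PI y x).filter (fun p : ℕ => (p : ℤ) ∣ n)) : ℝ) := by simp
        _ ≤ (n.natAbs.primeFactors.card : ℝ) := by
            exact_mod_cast primeDvd_card n hn _ hPr
    · apply Finset.sum_nonneg
      intro p hp
      split_ifs
      · exact G_nonneg B r p (hPr p hp).one_le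
      · exact le_rfl
  rw [h1]
  have h4 := abs_add_le (∑ p ∈ PB (y + 1), (fZ B r p n - G B r p))
    (∑ p ∈ PI y x, kZ B r p n - ∑ p ∈ PI y x, (if (p : ℤ) ∣ n then G B r p else 0))
  have h5 := abs_sub (∑ p ∈ PI y x, kZ B r p n)
    (∑ p ∈ PI y x, (if (p : ℤ) ∣ n then G B r p else 0))
  linarith

end Pool.Agent.K6.H61.AF
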