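import Pool.Agent.K6.H61.AF.Fam

set_option autoImplicit false

/-! # The exceptional set at one `x` -/

namespace Pool.Agent.K6.H61.AF

open Finset Filter
open Pool.Agent.N430.PS (G G_nonneg G_le_one cntP EE PB)

/-- The divisor bound `d(n) ≤ C n^δ` (as in `Pool.Agent.R323.NA.divisor_bound`). -/
lemma divisor_bound (δ : ℝ) (hδ : 0 < δ) :
    ∃ C : ℝ, 0 < C ∧ ∀ n : ℕ, n ≠ 0 → ((n.divisors.card : ℕ) : ℝ) ≤ C * (n : ℝ) ^ δ := by
  have hlog : 0 < Real.log 2 := Real.log_pos (by norm_num)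
  have hδl : 0 < δ * Real.log 2 := mul_pos hδ hlog
  set M : ℝ := max 1 (1 / (δ * Real.log 2)) with hM
  have hM1 : 1 ≤ M := le_max_left _ _
  have hM2 : 1 ≤ M * (δ * Real.log 2) := by
    have : 1 / (δ * Real.log 2) ≤ M := le_max_right _ _
    calc (1 : ℝ) = 1 / (δ * Real.log 2) * (δ * Real.log 2) := by
          field_simp
      _ ≤ M * (δ * Real.log 2) := mul_le_mul_of_nonneg_right this hδl.le
  set K : ℕ := ⌈(2 : ℝ) ^ (1 / δ)⌉₊ with hK
  have hKle : (2 : ℝ) ^ (1 / δ) ≤ (K : ℝ) := Nat.le_ceil _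
  refine ⟨M ^ K, by positivity, ?_⟩
  intro n hn
  have hbase : ∀ p ∈ n.primeFactors, (((n.factorization p + 1 : ℕ)) : ℝ) ≤
      (if p < K then M else 1) * (((p : ℝ) ^ (n.factorization p)) ^ δ) := by
    intro p hp
    have hpp : p.Prime := Nat.prime_of_mem_primeFactors hp
    set a := n.factorization p with ha
    have hp2 : (2 : ℝ) ≤ (p : ℝ) := by exact_mod_cast hpp.two_le
    have hp0 : (0 : ℝ) ≤ (p : ℝ) := by positivity
    have hpow : (((p : ℝ) ^ a) ^ δ) = ((p : ℝ) ^ δ) ^ a := by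
      rw [← Real.rpow_natCast (p : ℝ) a, ← Real.rpow_mul hp0, ← Real.rpow_natCast ((p : ℝ) ^ δ) a,
        ← Real.rpow_mul hp0, mul_comm]
    rw [hpow]
    split_ifs with hlt
    · have h1 : (2 : ℝ) ^ δ ≤ (p : ℝ) ^ δ := Real.rpow_le_rpow (by norm_num) hp2 hδ.le
      have h2 : ((2 : ℝ) ^ δ) ^ a ≤ ((p : ℝ) ^ δ) ^ a :=
        pow_le_pow_left₀ (by positivity) h1 a
      have h3 : 1 + (a : ℝ) * (δ * Real.log 2) ≤ ((2 : ℝ) ^ δ) ^ a := by
        have : ((2 : ℝ) ^ δ) ^ a = Real.exp ((a : ℝ) * (δ * Real.log 2)) := by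
          rw [← Real.rpow_natCast, ← Real.rpow_mul (by norm_num), Real.rpow_def_of_pos (by norm_num)]
          congr 1; ring
        rw [this]
        have := Real.add_one_le_exp ((a : ℝ) * (δ * Real.log 2))
        linarith
      have h4 : (((a + 1 : ℕ)) : ℝ) ≤ M * (1 + (a : ℝ) * (δ * Real.log 2)) := by
        push_cast
        have ha0 : (0 : ℝ) ≤ (a : ℝ) := by positivity
        nlinarith [mul_le_mul_of_nonneg_left hM2 ha0]
      calc (((a + 1 : ℕ)) : ℝ) ≤ M * (1 + (a : ℝ) * (δ * Real.log 2)) := h4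
        _ ≤ M * (((p : ℝ) ^ δ) ^ a) :=
          mul_le_mul_of_nonneg_left (h3.trans h2) (by linarith)
    · have hKp : (K : ℝ) ≤ (p : ℝ) := by exact_mod_cast not_lt.mp hlt
      have h1 : (2 : ℝ) ≤ (p : ℝ) ^ δ := by
        have h5 : ((2 : ℝ) ^ (1 / δ)) ^ δ ≤ (p : ℝ) ^ δ :=
          Real.rpow_le_rpow (by positivity) (hKle.trans hKp) hδ.le
        have h6 : ((2 : ℝ) ^ (1 / δ)) ^ δ = 2 := by
          rw [← Real.rpow_mul (by norm_num)]
          rw [one_div, inv_mul_cancel₀ hδ.ne', Real.rpow_one]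
        rwa [h6] at h5
      have h2 : (2 : ℝ) ^ a ≤ ((p : ℝ) ^ δ) ^ a := pow_le_pow_left₀ (by norm_num) h1 a
      have h3 : (((a + 1 : ℕ)) : ℝ) ≤ (2 : ℝ) ^ a := by
        have : a + 1 ≤ 2 ^ a := Nat.lt_two_pow_self
        exact_mod_cast this
      rw [one_mul]
      exact h3.trans h2
  have hn' : (n : ℝ) ^ δ = ∏ p ∈ n.primeFactors, (((p : ℝ) ^ (n.factorization p)) ^ δ) := by
    rw [Real.finsetProd_rpow _ _ (fun i _ => by positivity)]
    congr 1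
    have := Nat.prod_factorization_pow_eq_self hn
    conv_lhs => rw [← this]
    rw [Finsupp.prod]
    push_cast
    rfl
  rw [Nat.card_divisors hn]
  push_cast
  calc (∏ p ∈ n.primeFactors, ((n.factorization p : ℝ) + 1))
      ≤ ∏ p ∈ n.primeFactors, ((if p < K then M else 1) * (((p : ℝ) ^ (n.factorization p)) ^ δ)) := by
        apply Finset.prod_le_prod
        · intro i _; positivity
        · intro i hi
          have := hbase i hi
          push_cast at this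
          exact this
    _ = (∏ p ∈ n.primeFactors, (if p < K then M else 1)) * (n : ℝ) ^ δ := by
        rw [Finset.prod_mul_distrib, hn']
    _ ≤ M ^ K * (n : ℝ) ^ δ := by
        apply mul_le_mul_of_nonneg_right _ (by positivity)
        rw [Finset.prod_ite, Finset.prod_const, Finset.prod_const_one, mul_one]
        apply pow_le_pow_right₀ hM1
        calc (n.primeFactors.filter (fun p => p < K)).card ≤ (Finset.range K).card := by
              apply Finset.card_le_card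
              intro x hx
              simp only [Finset.mem_filter] at hx
              exact Finset.mem_range.mpr hx.2
          _ = K := Finset.card_range K

/-- **The exceptional set at one `x`.** -/
theorem oneX (δ : ℝ) (hδ : 0 < δ) (hδ1 : δ ≤ 1) : ∃ x₀ : ℕ, ∀ x : ℕ, x₀ ≤ x →
    ∀ (ι : Type) (Ω : Finset ι) (v : ι → ℤ) (B : ℤ) (r : ℕ), r ≠ 0 →
    ∀ Δ : ℕ → ℕ → ℝ, (∀ p q, 0 ≤ Δ p q) →
    (∀ p ∈ PI (Nat.sqrt x) x, ∀ q ∈ PI (Nat.sqrt x) x, p ≠ q →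
      ∀ χ : DirichletCharacter ℂ p, χ ≠ 1 → ∀ ψ : DirichletCharacter ℂ q, ψ ≠ 1 →
      ‖∑ ω ∈ Ω, χ (v ω : ZMod p) * ψ (v ω : ZMod q)‖ ≤ Δ p q) →
    ∑ p ∈ PI (Nat.sqrt x) x, ∑ q ∈ (PI (Nat.sqrt x) x).erase p, Δ p q ≤ (x : ℝ) ^ (2 - δ) * #Ω →
    (#(Ω.filter (fun ω => v ω = 0)) : ℝ) ≤ (x : ℝ) ^ (-δ) * #Ω →
    (∀ ω ∈ Ω, v ω ≠ 0 → ((v ω).natAbs.primeFactors.card : ℝ) ≤ (x : ℝ) ^ (1 - δ)) →
    (#(Ω.filter (fun ω => (x : ℝ) ^ (1 - δ / 8) <
      |(cntP (B * (v ω) ^ r) x : ℝ) - EE B r x|)) : ℝ) ≤ (x : ℝ) ^ (-(δ / 4)) * #Ω := by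
  classical
  obtain ⟨C, hC, hτ⟩ := divisor_bound (δ / 8) (by positivity)
  have hT : ∀ᶠ x : ℕ in atTop, max 16 (16 * C ^ 2) ≤ (x : ℝ) ^ (δ / 4) :=
    ((tendsto_rpow_atTop (by positivity)).comp tendsto_natCast_atTop_atTop).eventually_ge_atTop _
  obtain ⟨x₀, hx₀⟩ := eventually_atTop.1 (hT.and (eventually_ge_atTop 1))
  refine ⟨x₀, fun x hx ι Ω v B r hr Δ hΔ0 hΔ hsum hzero hsize => ?_⟩
  obtain ⟨hT, hx1⟩ := hx₀ x hx
  have hT16 : 16 ≤ (x : ℝ) ^ (δ / 4) := (le_max_left _ _).trans hT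
  have hTC : 16 * C ^ 2 ≤ (x : ℝ) ^ (δ / 4) := (le_max_right _ _).trans hT
  have hx1' : (1 : ℝ) ≤ x := by exact_mod_cast hx1
  have hx0 : (0 : ℝ) < x := by linarith
  have hge : ∀ e : ℝ, δ / 4 ≤ e → 16 ≤ (x : ℝ) ^ e := fun e he =>
    hT16.trans (Real.rpow_le_rpow_of_exponent_le hx1' he)
  set S := PI (Nat.sqrt x) x with hSdef
  have hSp : ∀ p ∈ S, p.Prime := fun p hp => (mem_filter.1 hp).2
  have hSx : ∀ p ∈ S, p ≤ x := fun p hp => (mem_Ioc.1 (mem_filter.1 hp).1).2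
  have hScard : (#S : ℝ) ≤ x := by
    have h1 : #S ≤ x := by
      refine (card_filter_le _ _).trans ?_
      rw [Nat.card_Ioc]
      omega
    exact_mod_cast h1
  have hΩ0 : (0 : ℝ) ≤ #Ω := Nat.cast_nonneg _
  have hτS : ∀ p ∈ S, ((p - 1).divisors.card : ℝ) ≤ C * (x : ℝ) ^ (δ / 8) := by
    intro p hp
    have h2 := (hSp p hp).two_le
    refine (hτ (p - 1) (by omega)).trans ?_
    apply mul_le_mul_of_nonneg_left _ hC.le
    apply Real.rpow_le_rpow (Nat.cast_nonneg _) _ (by positivity)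
    have h3 := hSx p hp
    exact_mod_cast (by omega : p - 1 ≤ x)
  -- the variance
  have hV := var_le Ω v B r hr S hSp Δ hΔ0 hΔ
  have hV2 : ∑ ω ∈ Ω, (∑ p ∈ S, kZ B r p (v ω)) ^ 2 ≤
      (x + C ^ 2 * (x : ℝ) ^ (2 - 3 * δ / 4)) * #Ω := by
    refine hV.trans ?_
    have h1 : ∑ p ∈ S, ∑ q ∈ S.erase p,
        ((p - 1).divisors.card : ℝ) * ((q - 1).divisors.card : ℝ) * Δ p q ≤
        (C * (x : ℝ) ^ (δ / 8)) ^ 2 * ((x : ℝ) ^ (2 - δ) * #Ω) := by
      refine le_trans ?_ (mul_le_mul_of_nonneg_left hsum (by positivity))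
      rw [Finset.mul_sum]
      refine Finset.sum_le_sum fun p hp => ?_
      rw [Finset.mul_sum]
      refine Finset.sum_le_sum fun q hq => ?_
      apply mul_le_mul_of_nonneg_right _ (hΔ0 p q)
      rw [sq]
      exact mul_le_mul (hτS p hp) (hτS q (Finset.mem_of_mem_erase hq)) (Nat.cast_nonneg _)
        (by positivity)
    have h2 : (C * (x : ℝ) ^ (δ / 8)) ^ 2 * ((x : ℝ) ^ (2 - δ) * #Ω) =
        C ^ 2 * (x : ℝ) ^ (2 - 3 * δ / 4) * #Ω := by
      have e1 : (x : ℝ) ^ (2 - 3 * δ / 4) = (x : ℝ) ^ (δ / 8) * (x : ℝ) ^ (δ / 8) * (x : ℝ) ^ (2 - δ) := by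
        rw [← Real.rpow_add hx0, ← Real.rpow_add hx0]
        congr 1
        ring
      rw [e1]
      ring
    rw [h2] at h1
    have h3 : (#S : ℝ) * #Ω ≤ x * #Ω := mul_le_mul_of_nonneg_right hScard hΩ0
    linarith
  -- the exceptional set
  set L : ℝ := (x : ℝ) ^ (1 - δ / 8) with hL
  have hL0 : 0 < L := by positivity
  set W : Finset ι := Ω.filter (fun ω => L / 2 ≤ |∑ p ∈ S, kZ B r p (v ω)|) with hW
  set Z : Finset ι := Ω.filter (fun ω => v ω = 0) with hZ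
  have hsqrt : (Nat.sqrt x : ℝ) ≤ L / 4 := by
    have h1 : (Nat.sqrt x : ℝ) ≤ (x : ℝ) ^ (1 / 2 : ℝ) := by
      rw [← Real.sqrt_eq_rpow]
      exact Real.nat_sqrt_le_real_sqrt
    have h2 : L = (x : ℝ) ^ (1 / 2 : ℝ) * (x : ℝ) ^ (1 / 2 - δ / 8) := by
      rw [hL, ← Real.rpow_add hx0]
      congr 1
      ring
    have h3 := hge (1 / 2 - δ / 8) (by linarith)
    have h4 : 0 ≤ (x : ℝ) ^ (1 / 2 : ℝ) := by positivity
    rw [h2]
    nlinarith
  have hpow : (x : ℝ) ^ (1 - δ) ≤ L / 4 := by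
    have h2 : L = (x : ℝ) ^ (1 - δ) * (x : ℝ) ^ (7 * δ / 8) := by
      rw [hL, ← Real.rpow_add hx0]
      congr 1
      ring
    have h3 := hge (7 * δ / 8) (by linarith)
    have h4 : 0 ≤ (x : ℝ) ^ (1 - δ) := by positivity
    rw [h2]
    nlinarith
  have hsub : Ω.filter (fun ω => L < |(cntP (B * (v ω) ^ r) x : ℝ) - EE B r x|) ⊆ Z ∪ W := by
    intro ω hω
    rw [mem_filter] at hω
    rw [mem_union, hZ, hW, mem_filter, mem_filter]
    by_cases h0 : v ω = 0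
    · exact Or.inl ⟨hω.1, h0⟩
    · right
      refine ⟨hω.1, ?_⟩
      have h1 := diffZ B r (v ω) h0 (Nat.sqrt x) x (Nat.sqrt_le_self x)
      have h2 := hsize ω hω.1 h0
      have h3 := hω.2
      rw [← hSdef] at h1
      linarith
  have hWc : (#W : ℝ) * (L / 2) ^ 2 ≤ (x + C ^ 2 * (x : ℝ) ^ (2 - 3 * δ / 4)) * #Ω := by
    refine le_trans ?_ hV2
    calc (#W : ℝ) * (L / 2) ^ 2 = ∑ ω ∈ W, (L / 2) ^ 2 := by rw [Finset.sum_const, nsmul_eq_mul]
      _ ≤ ∑ ω ∈ W, (∑ p ∈ S, kZ B r p (v ω)) ^ 2 := by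
          apply Finset.sum_le_sum
          intro ω hω
          rw [← sq_abs (∑ p ∈ S, kZ B r p (v ω))]
          exact pow_le_pow_left₀ (by positivity) (mem_filter.1 hω).2 2
      _ ≤ _ := Finset.sum_le_sum_of_subset_of_nonneg (Finset.filter_subset _ _)
          fun _ _ _ => sq_nonneg _
  have hL2 : (L / 2) ^ 2 = (x : ℝ) ^ (2 - δ / 4) / 4 := by
    have : L ^ 2 = (x : ℝ) ^ (2 - δ / 4) := by
      rw [hL, ← Real.rpow_natCast, ← Real.rpow_mul hx0.le]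
      congr 1
      push_cast
      ring
    rw [div_pow, this]
    norm_num
  have hW2 : (#W : ℝ) ≤ (x : ℝ) ^ (-(δ / 4)) / 2 * #Ω := by
    have hP0 : 0 < (x : ℝ) ^ (2 - δ / 4) / 4 := by positivity
    have h1 : (x + C ^ 2 * (x : ℝ) ^ (2 - 3 * δ / 4)) ≤
        (x : ℝ) ^ (-(δ / 4)) / 2 * ((x : ℝ) ^ (2 - δ / 4) / 4) := by
      have e1 : (x : ℝ) ^ (-(δ / 4)) * (x : ℝ) ^ (2 - δ / 4) = (x : ℝ) ^ (2 - δ / 2) := by
        rw [← Real.rpow_add hx0]
        congr 1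
        ring
      have e2 : (x : ℝ) ^ (2 - δ / 2) = (x : ℝ) * (x : ℝ) ^ (1 - δ / 2) := by
        conv_rhs => rw [← Real.rpow_one (x : ℝ), ← Real.rpow_mul hx0.le, one_mul, ← Real.rpow_add hx0]
        congr 1
        ring
      have e3 : (x : ℝ) ^ (2 - δ / 2) = (x : ℝ) ^ (2 - 3 * δ / 4) * (x : ℝ) ^ (δ / 4) := by
        rw [← Real.rpow_add hx0]
        congr 1
        ring
      have h3 := hge (1 - δ / 2) (by linarith)
      have h4 : x * 16 ≤ (x : ℝ) ^ (2 - δ / 2) := by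
        rw [e2]
        exact mul_le_mul_of_nonneg_left h3 hx0.le
      have h5 : (x : ℝ) ^ (2 - 3 * δ / 4) * (16 * C ^ 2) ≤ (x : ℝ) ^ (2 - δ / 2) := by
        rw [e3]
        exact mul_le_mul_of_nonneg_left hTC (by positivity)
      have e4 : (x : ℝ) ^ (-(δ / 4)) / 2 * ((x : ℝ) ^ (2 - δ / 4) / 4) = (x : ℝ) ^ (2 - δ / 2) / 8 := by
        rw [← e1]
        ring
      rw [e4]
      linarith
    rw [hL2] at hWc
    have h2 : (#W : ℝ) * ((x : ℝ) ^ (2 - δ / 4) / 4) ≤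
        ((x : ℝ) ^ (-(δ / 4)) / 2 * #Ω) * ((x : ℝ) ^ (2 - δ / 4) / 4) := by
      refine hWc.trans ?_
      have := mul_le_mul_of_nonneg_right h1 hΩ0
      linarith
    exact le_of_mul_le_mul_right h2 hP0
  have hZ2 : (#Z : ℝ) ≤ (x : ℝ) ^ (-(δ / 4)) / 2 * #Ω := by
    refine hzero.trans ?_
    apply mul_le_mul_of_nonneg_right _ hΩ0
    have e1 : (x : ℝ) ^ (-(δ / 4)) = (x : ℝ) ^ (-δ) * (x : ℝ) ^ (3 * δ / 4) := by
      rw [← Real.rpow_add hx0]
      congr 1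
      ring
    have h3 := hge (3 * δ / 4) (by linarith)
    have h4 : 0 < (x : ℝ) ^ (-δ) := by positivity
    rw [e1]
    nlinarith
  have h1 : (#(Ω.filter (fun ω => L < |(cntP (B * (v ω) ^ r) x : ℝ) - EE B r x|)) : ℝ) ≤
      (#Z : ℝ) + #W := by
    exact_mod_cast (card_le_card hsub).trans (card_union_le _ _)
  linarith

end Pool.Agent.K6.H61.AF
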