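import Pool.Agent.K6.H61.AF.OneX

set_option autoImplicit false

/-! # The exceptional set at one `x`, with an average bound for the divisors -/

namespace Pool.Agent.K6.H61.AF

open Finset Filter
open Pool.Agent.N430.PS (G G_nonneg G_le_one cntP EE PB)

/-- from the sum over the large primes to the count -/
lemma diffZ2 (B : ℤ) (r : ℕ) (n : ℤ) (y x : ℕ) (hyx : y ≤ x) :
    |(cntP (B * n ^ r) x : ℝ) - EE B r x| ≤
      |∑ p ∈ PI y x, kZ B r p n| + y + #((PI y x).filter (fun p : ℕ => (p : ℤ) ∣ n)) := by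
  classical
  have hsplit : PB (x + 1) = PB (y + 1) ∪ PI y x := by
    ext p
    simp only [PB, PI, mem_union, mem_filter, mem_range, mem_Ioc]
    constructor
    · rintro ⟨h1, h2⟩
      by_cases h : p < y + 1
      · exact Or.inl ⟨h, h2⟩
      · exact Or.inr ⟨⟨by omega, by omega⟩, h2⟩
    · rintro (⟨h1, h2⟩ | ⟨⟨h1, h3⟩, h2⟩)
      · exact ⟨by omega, h2⟩
      · exact ⟨by omega, h2⟩
  have hdisj : Disjoint (PB (y + 1)) (PI y x) := by
    rw [Finset.disjoint_left]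
    intro p hp hp2
    simp only [PB, PI, mem_filter, mem_range, mem_Ioc] at hp hp2
    omega
  have h1 : (cntP (B * n ^ r) x : ℝ) - EE B r x =
      ∑ p ∈ PB (y + 1), (fZ B r p n - G B r p) + (∑ p ∈ PI y x, kZ B r p n -
        ∑ p ∈ PI y x, (if (p : ℤ) ∣ n then G B r p else 0)) := by
    rw [cntZ_eq, EE, ← Finset.sum_sub_distrib, hsplit, Finset.sum_union hdisj,
      ← Finset.sum_sub_distrib]
    congr 1
    refine Finset.sum_congr rfl fun p _ => ?_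
    unfold kZ
    split_ifs <;> ring
  have h2 : |∑ p ∈ PB (y + 1), (fZ B r p n - G B r p)| ≤ y := by
    refine (Finset.abs_sum_le_sum_abs _ _).trans ?_
    have h3 : ∀ p ∈ PB (y + 1), |fZ B r p n - G B r p| ≤ 1 := by
      intro p hp
      simp only [PB, mem_filter] at hp
      have a1 := fZ_01 B r p n
      have a2 := G_nonneg B r p hp.2.one_le
      have a3 := G_le_one B r p hp.2
      rw [abs_le]
      constructor <;> linarith [a1.1, a1.2]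
    refine (Finset.sum_le_sum h3).trans ?_
    rw [Finset.sum_const, nsmul_eq_mul, mul_one]
    have h4 : #(PB (y + 1)) ≤ y := by
      have h5 : PB (y + 1) ⊆ Icc 1 y := by
        intro p hp
        simp only [PB, mem_filter, mem_range] at hp
        rw [mem_Icc]
        exact ⟨hp.2.one_le, by omega⟩
      have := card_le_card h5
      simpa using this
    exact_mod_cast h4
  have h3 : |∑ p ∈ PI y x, (if (p : ℤ) ∣ n then G B r p else 0)| ≤
      (#((PI y x).filter (fun p : ℕ => (p : ℤ) ∣ n)) : ℝ) := by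
    have hPr : ∀ p ∈ PI y x, p.Prime := fun p hp => (mem_filter.1 hp).2
    rw [abs_of_nonneg]
    · rw [← Finset.sum_filter]
      calc ∑ p ∈ (PI y x).filter (fun p : ℕ => (p : ℤ) ∣ n), G B r p
          ≤ ∑ p ∈ (PI y x).filter (fun p : ℕ => (p : ℤ) ∣ n), (1 : ℝ) := by
            apply Finset.sum_le_sum
            intro p hp
            exact G_le_one B r p (hPr p (mem_filter.1 hp).1)
        _ = (#((PI y x).filter (fun p : ℕ => (p : ℤ) ∣ n)) : ℝ) := by simp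
    · apply Finset.sum_nonneg
      intro p hp
      split_ifs
      · exact G_nonneg B r p (hPr p hp).one_le
      · exact le_rfl
  rw [h1]
  have h4 := abs_add_le (∑ p ∈ PB (y + 1), (fZ B r p n - G B r p))
    (∑ p ∈ PI y x, kZ B r p n - ∑ p ∈ PI y x, (if (p : ℤ) ∣ n then G B r p else 0))
  have h5 := abs_sub (∑ p ∈ PI y x, kZ B r p n)
    (∑ p ∈ PI y x, (if (p : ℤ) ∣ n then G B r p else 0))
  linarith

/-- **The exceptional set at one `x`.** -/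
theorem oneX2 (δ : ℝ) (hδ : 0 < δ) (hδ1 : δ ≤ 1) : ∃ x₀ : ℕ, ∀ x : ℕ, x₀ ≤ x →
    ∀ (ι : Type) (Ω : Finset ι) (v : ι → ℤ) (B : ℤ) (r : ℕ), r ≠ 0 →
    ∀ Δ : ℕ → ℕ → ℝ, (∀ p q, 0 ≤ Δ p q) →
    (∀ p ∈ PI (Nat.sqrt x) x, ∀ q ∈ PI (Nat.sqrt x) x, p ≠ q →
      ∀ χ : DirichletCharacter ℂ p, χ ≠ 1 → ∀ ψ : DirichletCharacter ℂ q, ψ ≠ 1 →
      ‖∑ ω ∈ Ω, χ (v ω : ZMod p) * ψ (v ω : ZMod q)‖ ≤ Δ p q) →
    ∑ p ∈ PI (Nat.sqrt x) x, ∑ q ∈ (PI (Nat.sqrt x) x).erase p, Δ p q ≤ (x : ℝ) ^ (2 - δ) * #Ω →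
    (∑ ω ∈ Ω, (#((PI (Nat.sqrt x) x).filter (fun p : ℕ => (p : ℤ) ∣ v ω)) : ℝ) ≤
      (x : ℝ) ^ (1 - δ) * #Ω) →
    (#(Ω.filter (fun ω => (x : ℝ) ^ (1 - δ / 8) <
      |(cntP (B * (v ω) ^ r) x : ℝ) - EE B r x|)) : ℝ) ≤ (x : ℝ) ^ (-(δ / 4)) * #Ω := by
  classical
  obtain ⟨C, hC, hτ⟩ := divisor_bound (δ / 8) (by positivity)
  have hT : ∀ᶠ x : ℕ in atTop, max 16 (16 * C ^ 2) ≤ (x : ℝ) ^ (δ / 4) :=
    ((tendsto_rpow_atTop (by positivity)).comp tendsto_natCast_atTop_atTop).eventually_ge_atTop _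
  obtain ⟨x₀, hx₀⟩ := eventually_atTop.1 (hT.and (eventually_ge_atTop 1))
  refine ⟨x₀, fun x hx ι Ω v B r hr Δ hΔ0 hΔ hsum hdiv => ?_⟩
  obtain ⟨hT, hx1⟩ := hx₀ x hx
  have hT16 : 16 ≤ (x : ℝ) ^ (δ / 4) := (le_max_left _ _).trans hT
  have hTC : 16 * C ^ 2 ≤ (x : ℝ) ^ (δ / 4) := (le_max_right _ _).trans hT
  have hx1' : (1 : ℝ) ≤ x := by exact_mod_cast hx1
  have hx0 : (0 : ℝ) < x := by linarith
  have hge : ∀ e : ℝ, δ / 4 ≤ e → 16 ≤ (x : ℝ) ^ e := fun e he =>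
    hT16.trans (Real.rpow_le_rpow_of_exponent_le hx1' he)
  set S := PI (Nat.sqrt x) x with hSdef
  have hSp : ∀ p ∈ S, p.Prime := fun p hp => (mem_filter.1 hp).2
  have hSx : ∀ p ∈ S, p ≤ x := fun p hp => (mem_Ioc.1 (mem_filter.1 hp).1).2
  have hScard : (#S : ℝ) ≤ x := by
    have h1 : #S ≤ x := by
      refine (card_filter_le _ _).trans ?_
      rw [Nat.card_Ioc]
      omega
    exact_mod_cast h1
  have hΩ0 : (0 : ℝ) ≤ #Ω := Nat.cast_nonneg _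
  have hτS : ∀ p ∈ S, ((p - 1).divisors.card : ℝ) ≤ C * (x : ℝ) ^ (δ / 8) := by
    intro p hp
    have h2 := (hSp p hp).two_le
    refine (hτ (p - 1) (by omega)).trans ?_
    apply mul_le_mul_of_nonneg_left _ hC.le
    apply Real.rpow_le_rpow (Nat.cast_nonneg _) _ (by positivity)
    have h3 := hSx p hp
    exact_mod_cast (by omega : p - 1 ≤ x)
  -- the variance
  have hV := var_le Ω v B r hr S hSp Δ hΔ0 hΔ
  have hV2 : ∑ ω ∈ Ω, (∑ p ∈ S, kZ B r p (v ω)) ^ 2 ≤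
      (x + C ^ 2 * (x : ℝ) ^ (2 - 3 * δ / 4)) * #Ω := by
    refine hV.trans ?_
    have h1 : ∑ p ∈ S, ∑ q ∈ S.erase p,
        ((p - 1).divisors.card : ℝ) * ((q - 1).divisors.card : ℝ) * Δ p q ≤
        (C * (x : ℝ) ^ (δ / 8)) ^ 2 * ((x : ℝ) ^ (2 - δ) * #Ω) := by
      refine le_trans ?_ (mul_le_mul_of_nonneg_left hsum (by positivity))
      rw [Finset.mul_sum]
      refine Finset.sum_le_sum fun p hp => ?_
      rw [Finset.mul_sum]
      refine Finset.sum_le_sum fun q hq => ?_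
      apply mul_le_mul_of_nonneg_right _ (hΔ0 p q)
      rw [sq]
      exact mul_le_mul (hτS p hp) (hτS q (Finset.mem_of_mem_erase hq)) (Nat.cast_nonneg _)
        (by positivity)
    have h2 : (C * (x : ℝ) ^ (δ / 8)) ^ 2 * ((x : ℝ) ^ (2 - δ) * #Ω) =
        C ^ 2 * (x : ℝ) ^ (2 - 3 * δ / 4) * #Ω := by
      have e1 : (x : ℝ) ^ (2 - 3 * δ / 4) = (x : ℝ) ^ (δ / 8) * (x : ℝ) ^ (δ / 8) * (x : ℝ) ^ (2 - δ) := by
        rw [← Real.rpow_add hx0, ← Real.rpow_add hx0]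
        congr 1
        ring
      rw [e1]
      ring
    rw [h2] at h1
    have h3 : (#S : ℝ) * #Ω ≤ x * #Ω := mul_le_mul_of_nonneg_right hScard hΩ0
    linarith
  -- the exceptional set
  set L : ℝ := (x : ℝ) ^ (1 - δ / 8) with hL
  have hL0 : 0 < L := by positivity
  set W : Finset ι := Ω.filter (fun ω => L / 2 ≤ |∑ p ∈ S, kZ B r p (v ω)|) with hW
  set Z : Finset ι := Ω.filter (fun ω =>
    L / 8 ≤ (#(S.filter (fun p : ℕ => (p : ℤ) ∣ v ω)) : ℝ)) with hZ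
  have hsqrt : (Nat.sqrt x : ℝ) ≤ L / 4 := by
    have h1 : (Nat.sqrt x : ℝ) ≤ (x : ℝ) ^ (1 / 2 : ℝ) := by
      rw [← Real.sqrt_eq_rpow]
      exact Real.nat_sqrt_le_real_sqrt
    have h2 : L = (x : ℝ) ^ (1 / 2 : ℝ) * (x : ℝ) ^ (1 / 2 - δ / 8) := by
      rw [hL, ← Real.rpow_add hx0]
      congr 1
      ring
    have h3 := hge (1 / 2 - δ / 8) (by linarith)
    have h4 : 0 ≤ (x : ℝ) ^ (1 / 2 : ℝ) := by positivity
    rw [h2]
    nlinarith
  have hpow : (x : ℝ) ^ (1 - δ) ≤ L / 4 := by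
    have h2 : L = (x : ℝ) ^ (1 - δ) * (x : ℝ) ^ (7 * δ / 8) := by
      rw [hL, ← Real.rpow_add hx0]
      congr 1
      ring
    have h3 := hge (7 * δ / 8) (by linarith)
    have h4 : 0 ≤ (x : ℝ) ^ (1 - δ) := by positivity
    rw [h2]
    nlinarith
  have hsub : Ω.filter (fun ω => L < |(cntP (B * (v ω) ^ r) x : ℝ) - EE B r x|) ⊆ Z ∪ W := by
    intro ω hω
    rw [mem_filter] at hω
    rw [mem_union, hZ, hW, mem_filter, mem_filter]
    by_cases h0 : L / 8 ≤ (#(S.filter (fun p : ℕ => (p : ℤ) ∣ v ω)) : ℝ)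
    · exact Or.inl ⟨hω.1, h0⟩
    · right
      refine ⟨hω.1, ?_⟩
      have h1 := diffZ2 B r (v ω) (Nat.sqrt x) x (Nat.sqrt_le_self x)
      have h3 := hω.2
      rw [← hSdef] at h1
      linarith
  have hWc : (#W : ℝ) * (L / 2) ^ 2 ≤ (x + C ^ 2 * (x : ℝ) ^ (2 - 3 * δ / 4)) * #Ω := by
    refine le_trans ?_ hV2
    calc (#W : ℝ) * (L / 2) ^ 2 = ∑ ω ∈ W, (L / 2) ^ 2 := by rw [Finset.sum_const, nsmul_eq_mul]
      _ ≤ ∑ ω ∈ W, (∑ p ∈ S, kZ B r p (v ω)) ^ 2 := by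
          apply Finset.sum_le_sum
          intro ω hω
          rw [← sq_abs (∑ p ∈ S, kZ B r p (v ω))]
          exact pow_le_pow_left₀ (by positivity) (mem_filter.1 hω).2 2
      _ ≤ _ := Finset.sum_le_sum_of_subset_of_nonneg (Finset.filter_subset _ _)
          fun _ _ _ => sq_nonneg _
  have hL2 : (L / 2) ^ 2 = (x : ℝ) ^ (2 - δ / 4) / 4 := by
    have : L ^ 2 = (x : ℝ) ^ (2 - δ / 4) := by
      rw [hL, ← Real.rpow_natCast, ← Real.rpow_mul hx0.le]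
      congr 1
      push_cast
      ring
    rw [div_pow, this]
    norm_num
  have hW2 : (#W : ℝ) ≤ (x : ℝ) ^ (-(δ / 4)) / 2 * #Ω := by
    have hP0 : 0 < (x : ℝ) ^ (2 - δ / 4) / 4 := by positivity
    have h1 : (x + C ^ 2 * (x : ℝ) ^ (2 - 3 * δ / 4)) ≤
        (x : ℝ) ^ (-(δ / 4)) / 2 * ((x : ℝ) ^ (2 - δ / 4) / 4) := by
      have e1 : (x : ℝ) ^ (-(δ / 4)) * (x : ℝ) ^ (2 - δ / 4) = (x : ℝ) ^ (2 - δ / 2) := by
        rw [← Real.rpow_add hx0]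
        congr 1
        ring
      have e2 : (x : ℝ) ^ (2 - δ / 2) = (x : ℝ) * (x : ℝ) ^ (1 - δ / 2) := by
        conv_rhs => rw [← Real.rpow_one (x : ℝ), ← Real.rpow_mul hx0.le, one_mul, ← Real.rpow_add hx0]
        congr 1
        ring
      have e3 : (x : ℝ) ^ (2 - δ / 2) = (x : ℝ) ^ (2 - 3 * δ / 4) * (x : ℝ) ^ (δ / 4) := by
        rw [← Real.rpow_add hx0]
        congr 1
        ring
      have h3 := hge (1 - δ / 2) (by linarith)
      have h4 : x * 16 ≤ (x : ℝ) ^ (2 - δ / 2) := by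
        rw [e2]
        exact mul_le_mul_of_nonneg_left h3 hx0.le
      have h5 : (x : ℝ) ^ (2 - 3 * δ / 4) * (16 * C ^ 2) ≤ (x : ℝ) ^ (2 - δ / 2) := by
        rw [e3]
        exact mul_le_mul_of_nonneg_left hTC (by positivity)
      have e4 : (x : ℝ) ^ (-(δ / 4)) / 2 * ((x : ℝ) ^ (2 - δ / 4) / 4) = (x : ℝ) ^ (2 - δ / 2) / 8 := by
        rw [← e1]
        ring
      rw [e4]
      linarith
    rw [hL2] at hWc
    have h2 : (#W : ℝ) * ((x : ℝ) ^ (2 - δ / 4) / 4) ≤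
        ((x : ℝ) ^ (-(δ / 4)) / 2 * #Ω) * ((x : ℝ) ^ (2 - δ / 4) / 4) := by
      refine hWc.trans ?_
      have := mul_le_mul_of_nonneg_right h1 hΩ0
      linarith
    exact le_of_mul_le_mul_right h2 hP0
  have hZ2 : (#Z : ℝ) ≤ (x : ℝ) ^ (-(δ / 4)) / 2 * #Ω := by
    have h1 : (#Z : ℝ) * (L / 8) ≤ (x : ℝ) ^ (1 - δ) * #Ω := by
      refine le_trans ?_ hdiv
      calc (#Z : ℝ) * (L / 8) = ∑ ω ∈ Z, (L / 8) := by rw [Finset.sum_const, nsmul_eq_mul]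
        _ ≤ ∑ ω ∈ Z, (#(S.filter (fun p : ℕ => (p : ℤ) ∣ v ω)) : ℝ) :=
            Finset.sum_le_sum fun ω hω => (mem_filter.1 hω).2
        _ ≤ _ := Finset.sum_le_sum_of_subset_of_nonneg (Finset.filter_subset _ _)
            fun _ _ _ => Nat.cast_nonneg _
    have h2 : (x : ℝ) ^ (1 - δ) ≤ (x : ℝ) ^ (-(δ / 4)) / 2 * (L / 8) := by
      have e1 : (x : ℝ) ^ (-(δ / 4)) * L = (x : ℝ) ^ (1 - δ) * (x : ℝ) ^ (5 * δ / 8) := by
        rw [hL, ← Real.rpow_add hx0, ← Real.rpow_add hx0]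
        congr 1
        ring
      have h3 := hge (5 * δ / 8) (by linarith)
      have h4 : 0 ≤ (x : ℝ) ^ (1 - δ) := by positivity
      have h5 := mul_le_mul_of_nonneg_left h3 h4
      linarith
    have h3 : (#Z : ℝ) * (L / 8) ≤ ((x : ℝ) ^ (-(δ / 4)) / 2 * #Ω) * (L / 8) := by
      have := mul_le_mul_of_nonneg_right h2 hΩ0
      linarith
    exact le_of_mul_le_mul_right h3 (by positivity)
  have h1 : (#(Ω.filter (fun ω => L < |(cntP (B * (v ω) ^ r) x : ℝ) - EE B r x|)) : ℝ) ≤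
      (#Z : ℝ) + #W := by
    exact_mod_cast (card_le_card hsub).trans (card_union_le _ _)
  linarith

end Pool.Agent.K6.H61.AF
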