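import Pool.Agent.K6.H61.AF.AllX
import Pool.Agent.K6.H61.AF.Bil

set_option autoImplicit false

/-! # Artin's conjecture for the sums of two arbitrary sets of integers -/

namespace Pool.Agent.K6.H61.AF

open Finset Filter
open Pool.Agent.N430.PS (G G_nonneg G_le_one cntP EE PB card_pf)

lemma pf_card (n : ℤ) (hn : n ≠ 0) (u : ℝ) (hu : 1 ≤ u) (h : |(n : ℝ)| ≤ 2 * Real.exp u) :
    (n.natAbs.primeFactors.card : ℝ) ≤ 4 * u := by
  have hn1 : 1 ≤ n.natAbs := Int.natAbs_pos.2 hn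
  have h1 := card_pf n.natAbs n.natAbs hn1 le_rfl
  have hn1' : (1 : ℝ) ≤ n.natAbs := by exact_mod_cast hn1
  have h2 : ((n.natAbs : ℕ) : ℝ) = |(n : ℝ)| := by
    rw [Nat.cast_natAbs, Int.cast_abs]
  have h3 : Real.log (n.natAbs : ℝ) ≤ Real.log 2 + u := by
    rw [h2]
    have h4 := Real.log_le_log (by rw [← h2]; linarith) h
    rwa [Real.log_mul (by norm_num) (Real.exp_pos _).ne', Real.log_exp] at h4
  have h5 : Real.log 2 ≤ 1 := by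
    have := Real.log_two_lt_d9
    linarith
  linarith

/-- the off-diagonal sum -/
lemma offdiag (A B : Finset ℤ) (S : Finset ℕ) (hS : ∀ p ∈ S, p.Prime) (z : ℝ)
    (hSz : (#S : ℝ) ≤ z) (K : ℝ)
    (hA : ∀ a ∈ A, ∀ b ∈ A, a ≠ b → ((a - b).natAbs.primeFactors.card : ℝ) ≤ K)
    (hB : ∀ a ∈ B, ∀ b ∈ B, a ≠ b → ((a - b).natAbs.primeFactors.card : ℝ) ≤ K) :
    ∑ p ∈ S, ∑ q ∈ S.erase p, √((col A p q : ℝ) * (z ^ 2 * col B p q + (#B : ℝ) ^ 2)) ≤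
      √((z ^ 2 * #A + K ^ 2 * (#A : ℝ) ^ 2) *
        (z ^ 4 * #B + z ^ 2 * (K ^ 2 + 1) * (#B : ℝ) ^ 2)) := by
  classical
  set T : Finset (ℕ × ℕ) := (S ×ˢ S).filter (fun w => w.2 ≠ w.1) with hT
  have e : ∀ f : ℕ → ℕ → ℝ, ∑ p ∈ S, ∑ q ∈ S.erase p, f p q = ∑ w ∈ T, f w.1 w.2 := by
    intro f
    rw [hT, Finset.sum_filter, Finset.sum_product]
    refine Finset.sum_congr rfl fun p _ => ?_
    rw [← Finset.sum_filter]
    refine Finset.sum_congr ?_ fun _ _ => rfl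
    ext q
    simp only [mem_erase, mem_filter]
    tauto
  have hz2 : (#S : ℝ) ^ 2 ≤ z ^ 2 := pow_le_pow_left₀ (Nat.cast_nonneg _) hSz 2
  have hcA : ∑ w ∈ T, (col A w.1 w.2 : ℝ) ≤ z ^ 2 * #A + K ^ 2 * (#A : ℝ) ^ 2 := by
    rw [← e (fun p q => (col A p q : ℝ))]
    refine (col_sum A S hS K hA).trans ?_
    have : (#S : ℝ) ^ 2 * #A ≤ z ^ 2 * #A := mul_le_mul_of_nonneg_right hz2 (Nat.cast_nonneg _)
    linarith
  have hcB : ∑ w ∈ T, (z ^ 2 * col B w.1 w.2 + (#B : ℝ) ^ 2) ≤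
      z ^ 4 * #B + z ^ 2 * (K ^ 2 + 1) * (#B : ℝ) ^ 2 := by
    rw [Finset.sum_add_distrib, ← Finset.mul_sum, Finset.sum_const, nsmul_eq_mul]
    have h1 : ∑ w ∈ T, (col B w.1 w.2 : ℝ) ≤ z ^ 2 * #B + K ^ 2 * (#B : ℝ) ^ 2 := by
      rw [← e (fun p q => (col B p q : ℝ))]
      refine (col_sum B S hS K hB).trans ?_
      have : (#S : ℝ) ^ 2 * #B ≤ z ^ 2 * #B := mul_le_mul_of_nonneg_right hz2 (Nat.cast_nonneg _)
      linarith
    have h2 : (#T : ℝ) ≤ z ^ 2 := by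
      refine le_trans ?_ hz2
      have : #T ≤ #S * #S := by
        rw [← Finset.card_product]
        exact card_filter_le _ _
      rw [sq]
      exact_mod_cast this
    have h3 : z ^ 2 * ∑ w ∈ T, (col B w.1 w.2 : ℝ) ≤ z ^ 2 * (z ^ 2 * #B + K ^ 2 * (#B : ℝ) ^ 2) :=
      mul_le_mul_of_nonneg_left h1 (by positivity)
    have h4 : (#T : ℝ) * (#B : ℝ) ^ 2 ≤ z ^ 2 * (#B : ℝ) ^ 2 :=
      mul_le_mul_of_nonneg_right h2 (by positivity)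
    calc z ^ 2 * ∑ w ∈ T, (col B w.1 w.2 : ℝ) + (#T : ℝ) * (#B : ℝ) ^ 2
        ≤ z ^ 2 * (z ^ 2 * #B + K ^ 2 * (#B : ℝ) ^ 2) + z ^ 2 * (#B : ℝ) ^ 2 := add_le_add h3 h4
      _ = _ := by ring
  rw [e (fun p q => √((col A p q : ℝ) * (z ^ 2 * col B p q + (#B : ℝ) ^ 2)))]
  apply Real.le_sqrt_of_sq_le
  have h1 : ∑ w ∈ T, √((col A w.1 w.2 : ℝ) * (z ^ 2 * col B w.1 w.2 + (#B : ℝ) ^ 2)) =
      ∑ w ∈ T, √(col A w.1 w.2 : ℝ) * √(z ^ 2 * col B w.1 w.2 + (#B : ℝ) ^ 2) := by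
    refine Finset.sum_congr rfl fun w _ => ?_
    rw [Real.sqrt_mul (Nat.cast_nonneg _)]
  rw [h1]
  refine (Finset.sum_mul_sq_le_sq_mul_sq _ _ _).trans ?_
  have h2 : ∑ w ∈ T, √(col A w.1 w.2 : ℝ) ^ 2 = ∑ w ∈ T, (col A w.1 w.2 : ℝ) :=
    Finset.sum_congr rfl fun w _ => Real.sq_sqrt (Nat.cast_nonneg _)
  have h3 : ∑ w ∈ T, √(z ^ 2 * col B w.1 w.2 + (#B : ℝ) ^ 2) ^ 2 =
      ∑ w ∈ T, (z ^ 2 * col B w.1 w.2 + (#B : ℝ) ^ 2) :=
    Finset.sum_congr rfl fun w _ => Real.sq_sqrt (by positivity)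
  rw [h2, h3]
  apply mul_le_mul hcA hcB (Finset.sum_nonneg fun _ _ => by positivity) (by positivity)

/-- **Sums of two arbitrary sets.** -/
theorem sumset (η : ℝ) (hη : 0 < η) (hη1 : η ≤ 1 / 4) : ∃ c : ℝ, 0 < c ∧ ∃ X₀ : ℕ,
    ∀ X Y : ℕ, X₀ ≤ X → X ≤ Y → ∀ A B : Finset ℤ,
    (∀ a ∈ A, |(a : ℝ)| ≤ Real.exp ((X : ℝ) ^ (1 / 2 - η))) →
    (∀ a ∈ B, |(a : ℝ)| ≤ Real.exp ((X : ℝ) ^ (1 / 2 - η))) →
    (Y : ℝ) ^ (1 - η) ≤ #A → (Y : ℝ) ^ (1 - η) ≤ #B → (Y : ℝ) ^ (2 + η) ≤ (#A : ℝ) * #B →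
    ∀ (M : ℤ) (r : ℕ), r ≠ 0 →
    (#(open Classical in (A ×ˢ B).filter (fun ω : ℤ × ℤ => ∃ x : ℕ, X ≤ x ∧ x ≤ Y ∧
      (x : ℝ) ^ (1 - c) < |(cntP (M * (ω.1 + ω.2) ^ r) x : ℝ) - EE M r x|)) : ℝ) ≤
      (X : ℝ) ^ (-c) * ((#A : ℝ) * #B) := by
  classical
  set δ : ℝ := η / 4 with hδd
  have hδ : 0 < δ := by positivity
  have hδ1 : δ ≤ 1 := by linarith
  obtain ⟨c, hc, -, R, X₀, hR, hall⟩ := allX δ hδ hδ1
  obtain ⟨x₁, hone⟩ := oneX δ hδ hδ1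
  have hR1 : (1 : ℝ) ≤ R := by exact_mod_cast hR
  -- conditions on `z`
  have hev : ∀ᶠ z : ℕ in atTop, 1000 * (R : ℝ) ^ 4 ≤ (z : ℝ) ^ (η / 4) :=
    ((tendsto_rpow_atTop (by positivity)).comp tendsto_natCast_atTop_atTop).eventually_ge_atTop _
  obtain ⟨z₀, hz₀⟩ := eventually_atTop.1 hev
  refine ⟨c, hc, max X₀ (R * (max x₁ (max z₀ 1)) + 1), fun X Y hX hXY A B hA hB hA1 hB1 hAB M r hr => ?_⟩
  have hX0 : X₀ ≤ X := (le_max_left _ _).trans hX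
  have hX1 : R * (max x₁ (max z₀ 1)) + 1 ≤ X := (le_max_right _ _).trans hX
  have hXpos : 1 ≤ X := by omega
  have hcard : (#(A ×ˢ B) : ℝ) = (#A : ℝ) * #B := by
    rw [Finset.card_product]
    push_cast
    rfl
  have key := hall (ℤ × ℤ) (A ×ˢ B) (fun ω => ω.1 + ω.2) M r X Y hX0 hXY ?_
  · rw [hcard] at key
    exact key
  intro z hXz hzY
  have hzbig : max x₁ (max z₀ 1) ≤ z := by
    have h1 : R * max x₁ (max z₀ 1) < R * z := by omega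
    exact (Nat.lt_of_mul_lt_mul_left h1).le
  have hzx : x₁ ≤ z := (le_max_left _ _).trans hzbig
  have hzz : z₀ ≤ z := (le_max_left _ _).trans ((le_max_right _ _).trans hzbig)
  have hz1 : 1 ≤ z := (le_max_right _ _).trans ((le_max_right _ _).trans hzbig)
  have hz1' : (1 : ℝ) ≤ z := by exact_mod_cast hz1
  have hz0 : (0 : ℝ) < z := by linarith
  have hT := hz₀ z hzz
  set T : ℝ := (z : ℝ) ^ (η / 4) with hTdef
  have hT1 : 1000 ≤ T := by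
    have : (1 : ℝ) ≤ (R : ℝ) ^ 4 := one_le_pow₀ hR1
    linarith
  have hT0 : 0 < T := by linarith
  -- sizes
  set a : ℝ := (#A : ℝ) with ha
  set b : ℝ := (#B : ℝ) with hb
  have ha0 : 0 ≤ a := Nat.cast_nonneg _
  have hb0 : 0 ≤ b := Nat.cast_nonneg _
  have hXr : (1 : ℝ) ≤ X := by exact_mod_cast hXpos
  have hXz' : (X : ℝ) ≤ R * z := by exact_mod_cast hXz
  have hzY' : (z : ℝ) ≤ R * Y := by exact_mod_cast hzY
  have hYr : (1 : ℝ) ≤ Y := by exact_mod_cast hXpos.trans hXY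
  -- lower bounds for powers of `Y`
  have hYpow : ∀ e : ℝ, 0 ≤ e → e ≤ 3 → (z : ℝ) ^ e ≤ (R : ℝ) ^ 3 * (Y : ℝ) ^ e := by
    intro e he he3
    calc (z : ℝ) ^ e ≤ ((R : ℝ) * Y) ^ e := Real.rpow_le_rpow hz0.le hzY' he
      _ = (R : ℝ) ^ e * (Y : ℝ) ^ e := Real.mul_rpow (by linarith) (by linarith)
      _ ≤ (R : ℝ) ^ (3 : ℝ) * (Y : ℝ) ^ e := by
          apply mul_le_mul_of_nonneg_right _ (by positivity)
          exact Real.rpow_le_rpow_of_exponent_le hR1 he3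
      _ = (R : ℝ) ^ 3 * (Y : ℝ) ^ e := by norm_cast
  -- the prime factors
  set u : ℝ := (X : ℝ) ^ (1 / 2 - η) with hu
  have hu1 : 1 ≤ u := Real.one_le_rpow hXr (by linarith)
  set K : ℝ := 4 * u with hK
  have hdiff : ∀ C : Finset ℤ, (∀ a ∈ C, |(a : ℝ)| ≤ Real.exp u) →
      ∀ a ∈ C, ∀ b ∈ C, a ≠ b → ((a - b).natAbs.primeFactors.card : ℝ) ≤ K := by
    intro C hC a ha b hb hab
    apply pf_card (a - b) (sub_ne_zero.2 hab) u hu1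
    push_cast
    have h1 := abs_sub (a : ℝ) (b : ℝ)
    have h2 := hC a ha
    have h3 := hC b hb
    linarith
  have huz : u ^ 2 ≤ R * (z : ℝ) ^ (1 - 2 * η) := by
    have e1 : u ^ 2 = (X : ℝ) ^ (1 - 2 * η) := by
      rw [hu, ← Real.rpow_natCast, ← Real.rpow_mul (by linarith)]
      congr 1
      push_cast
      ring
    rw [e1]
    calc (X : ℝ) ^ (1 - 2 * η) ≤ ((R : ℝ) * z) ^ (1 - 2 * η) :=
          Real.rpow_le_rpow (by linarith) hXz' (by linarith)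
      _ = (R : ℝ) ^ (1 - 2 * η) * (z : ℝ) ^ (1 - 2 * η) := Real.mul_rpow (by linarith) hz0.le
      _ ≤ (R : ℝ) ^ (1 : ℝ) * (z : ℝ) ^ (1 - 2 * η) := by
          apply mul_le_mul_of_nonneg_right _ (by positivity)
          exact Real.rpow_le_rpow_of_exponent_le hR1 (by linarith)
      _ = _ := by rw [Real.rpow_one]
  have hK2 : K ^ 2 + 1 ≤ 17 * R * (z : ℝ) ^ (1 - 2 * η) := by
    have h1 : 1 ≤ u ^ 2 := one_le_pow₀ hu1
    have e1 : K ^ 2 = 16 * u ^ 2 := by rw [hK]; ring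
    rw [e1]
    linarith
  have hTpow : ∀ (e : ℝ) (k : ℕ), (z : ℝ) ^ (e + k * (η / 4)) = (z : ℝ) ^ e * T ^ k := by
    intro e k
    rw [Real.rpow_add hz0, hTdef, ← Real.rpow_natCast ((z : ℝ) ^ (η / 4)) k, ← Real.rpow_mul hz0.le]
    congr 2
    ring
  have hRT : ∀ m : ℕ, m ≤ 4 → 1000 * (R : ℝ) ^ m ≤ T := by
    intro m hm
    refine le_trans ?_ hT
    have := pow_le_pow_right₀ hR1 hm
    linarith
  -- the four bounds
  have hb1 : ∀ s : ℝ, (Y : ℝ) ^ (1 - η) ≤ s → 4 * (K ^ 2 + 1) * T ^ 2 ≤ s := by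
    intro s hs
    have h1 := hYpow (1 - η) (by linarith) (by linarith)
    have h2 := hTpow (1 - 2 * η) 4
    have h3 : (1 - 2 * η) + ((4 : ℕ) : ℝ) * (η / 4) = 1 - η := by push_cast; ring
    rw [h3] at h2
    rw [h2] at h1
    have h4 : 4 * (K ^ 2 + 1) * T ^ 2 ≤ 4 * (17 * R * (z : ℝ) ^ (1 - 2 * η)) * T ^ 2 := by
      apply mul_le_mul_of_nonneg_right _ (by positivity)
      linarith
    have h5 : (R : ℝ) ^ 3 * (4 * (17 * R * (z : ℝ) ^ (1 - 2 * η)) * T ^ 2) ≤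
        (z : ℝ) ^ (1 - 2 * η) * T ^ 4 := by
      have h6 := hRT 4 le_rfl
      have h7 : 0 ≤ (z : ℝ) ^ (1 - 2 * η) * T ^ 2 := by positivity
      have h8 : 68 * (R : ℝ) ^ 4 ≤ T ^ 2 := by
        have h9 : T ≤ T ^ 2 := le_self_pow₀ (by linarith) (by norm_num)
        have h10 : (0 : ℝ) ≤ (R : ℝ) ^ 4 := by positivity
        linarith
      calc (R : ℝ) ^ 3 * (4 * (17 * R * (z : ℝ) ^ (1 - 2 * η)) * T ^ 2)
          = 68 * (R : ℝ) ^ 4 * ((z : ℝ) ^ (1 - 2 * η) * T ^ 2) := by ring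
        _ ≤ T ^ 2 * ((z : ℝ) ^ (1 - 2 * η) * T ^ 2) := mul_le_mul_of_nonneg_right h8 h7
        _ = _ := by ring
    have hR3 : (0 : ℝ) < (R : ℝ) ^ 3 := by positivity
    have h6 : (R : ℝ) ^ 3 * (4 * (K ^ 2 + 1) * T ^ 2) ≤ (R : ℝ) ^ 3 * s := by
      calc (R : ℝ) ^ 3 * (4 * (K ^ 2 + 1) * T ^ 2)
          ≤ (R : ℝ) ^ 3 * (4 * (17 * R * (z : ℝ) ^ (1 - 2 * η)) * T ^ 2) :=
            mul_le_mul_of_nonneg_left h4 hR3.le
        _ ≤ (z : ℝ) ^ (1 - 2 * η) * T ^ 4 := h5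
        _ ≤ (R : ℝ) ^ 3 * (Y : ℝ) ^ (1 - η) := h1
        _ ≤ (R : ℝ) ^ 3 * s := mul_le_mul_of_nonneg_left hs hR3.le
    exact le_of_mul_le_mul_left h6 hR3
  have hab : 4 * ((z : ℝ) ^ 2 * T ^ 2) ≤ a * b := by
    have h1 := hYpow (2 + η) (by linarith) (by linarith)
    have h2 := hTpow 2 4
    have h3 : 2 + ((4 : ℕ) : ℝ) * (η / 4) = 2 + η := by push_cast; ring
    rw [h3] at h2
    rw [h2] at h1
    have e2 : (z : ℝ) ^ (2 : ℝ) = (z : ℝ) ^ 2 := by norm_cast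
    rw [e2] at h1
    have hR3 : (0 : ℝ) < (R : ℝ) ^ 3 := by positivity
    have h5 : (R : ℝ) ^ 3 * (4 * ((z : ℝ) ^ 2 * T ^ 2)) ≤ (z : ℝ) ^ 2 * T ^ 4 := by
      have h6 := hRT 3 (by norm_num)
      have h8 : 4 * (R : ℝ) ^ 3 ≤ T ^ 2 := by
        have h9 : T ≤ T ^ 2 := le_self_pow₀ (by linarith) (by norm_num)
        have h10 : (0 : ℝ) ≤ (R : ℝ) ^ 3 := by positivity
        linarith
      calc (R : ℝ) ^ 3 * (4 * ((z : ℝ) ^ 2 * T ^ 2)) = 4 * (R : ℝ) ^ 3 * ((z : ℝ) ^ 2 * T ^ 2) := by ring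
        _ ≤ T ^ 2 * ((z : ℝ) ^ 2 * T ^ 2) := mul_le_mul_of_nonneg_right h8 (by positivity)
        _ = _ := by ring
    have h6 : (R : ℝ) ^ 3 * (4 * ((z : ℝ) ^ 2 * T ^ 2)) ≤ (R : ℝ) ^ 3 * (a * b) :=
      h5.trans (h1.trans (mul_le_mul_of_nonneg_left hAB hR3.le))
    exact le_of_mul_le_mul_left h6 hR3
  have hKK : 4 * (K ^ 2 * (K ^ 2 + 1)) * T ^ 2 ≤ (z : ℝ) ^ 2 := by
    have h1 : K ^ 2 * (K ^ 2 + 1) ≤ (17 * R * (z : ℝ) ^ (1 - 2 * η)) ^ 2 := by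
      rw [sq (17 * R * (z : ℝ) ^ (1 - 2 * η))]
      exact mul_le_mul (by linarith) hK2 (by positivity) (by positivity)
    have h2 := hTpow (2 - 4 * η) 16
    have h3 : (2 - 4 * η) + ((16 : ℕ) : ℝ) * (η / 4) = 2 := by push_cast; ring
    rw [h3] at h2
    have e2 : (z : ℝ) ^ (2 : ℝ) = (z : ℝ) ^ 2 := by norm_cast
    rw [e2] at h2
    have e3 : ((z : ℝ) ^ (1 - 2 * η)) ^ 2 = (z : ℝ) ^ (2 - 4 * η) := by
      rw [← Real.rpow_natCast, ← Real.rpow_mul hz0.le]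
      congr 1
      push_cast
      ring
    rw [h2]
    have h6 := hRT 2 (by norm_num)
    have h7 : 4 * (17 * (R : ℝ)) ^ 2 ≤ T ^ 2 := by
      have h8 : (0 : ℝ) ≤ (R : ℝ) ^ 2 := by positivity
      have h9 : 1000 * T ≤ T * T := mul_le_mul_of_nonneg_right hT1 hT0.le
      have e9 : 4 * (17 * (R : ℝ)) ^ 2 = 1156 * (R : ℝ) ^ 2 := by ring
      rw [e9, sq T]
      linarith
    have hT12 : T ^ 4 ≤ T ^ 16 := pow_le_pow_right₀ (by linarith) (by norm_num)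
    calc 4 * (K ^ 2 * (K ^ 2 + 1)) * T ^ 2 ≤ 4 * ((17 * R * (z : ℝ) ^ (1 - 2 * η)) ^ 2) * T ^ 2 := by
          apply mul_le_mul_of_nonneg_right _ (by positivity)
          exact mul_le_mul_of_nonneg_left h1 (by norm_num)
      _ = 4 * (17 * (R : ℝ)) ^ 2 * T ^ 2 * ((z : ℝ) ^ (1 - 2 * η)) ^ 2 := by ring
      _ ≤ T ^ 2 * T ^ 2 * ((z : ℝ) ^ (1 - 2 * η)) ^ 2 := by
          apply mul_le_mul_of_nonneg_right _ (by positivity)
          exact mul_le_mul_of_nonneg_right h7 (by positivity)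
      _ = (z : ℝ) ^ (2 - 4 * η) * T ^ 4 := by rw [e3]; ring
      _ ≤ (z : ℝ) ^ (2 - 4 * η) * T ^ 16 := mul_le_mul_of_nonneg_left hT12 (by positivity)
  -- apply the theorem for one `x`
  have hres := hone z hzx (ℤ × ℤ) (A ×ˢ B) (fun ω => ω.1 + ω.2) M r hr
    (fun p q => √((col A p q : ℝ) * ((z : ℝ) ^ 2 * col B p q + b ^ 2)))
    (fun p q => Real.sqrt_nonneg _) ?_ ?_ ?_ ?_
  · exact hres
  · intro p hp q hq _ χ hχ ψ hψ
    have hpp : p.Prime := (mem_filter.1 hp).2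
    have hqp : q.Prime := (mem_filter.1 hq).2
    have hpz : (p : ℝ) ≤ z := by exact_mod_cast (mem_Ioc.1 (mem_filter.1 hp).1).2
    have hqz : (q : ℝ) ≤ z := by exact_mod_cast (mem_Ioc.1 (mem_filter.1 hq).1).2
    apply Real.le_sqrt_of_sq_le
    refine (bilin p q hpp hqp χ hχ ψ hψ A B).trans ?_
    apply mul_le_mul_of_nonneg_left _ (Nat.cast_nonneg _)
    have h1 : (p : ℝ) * q ≤ z ^ 2 := by
      rw [sq]
      exact mul_le_mul hpz hqz (Nat.cast_nonneg _) hz0.le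
    have h2 : (p : ℝ) * q * col B p q ≤ (z : ℝ) ^ 2 * col B p q :=
      mul_le_mul_of_nonneg_right h1 (Nat.cast_nonneg _)
    linarith
  · have hSz : (#(PI (Nat.sqrt z) z) : ℝ) ≤ z := by
      have h1 : #(PI (Nat.sqrt z) z) ≤ z := by
        refine (card_filter_le _ _).trans ?_
        rw [Nat.card_Ioc]
        omega
      exact_mod_cast h1
    refine (offdiag A B (PI (Nat.sqrt z) z) (fun p hp => (mem_filter.1 hp).2) z hSz K
      (hdiff A hA) (hdiff B hB)).trans ?_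
    rw [hcard]
    have hz2δ : (z : ℝ) ^ (2 - δ) * (a * b) = (z : ℝ) ^ 2 * (a * b) / T := by
      have : (z : ℝ) ^ (2 - δ) = (z : ℝ) ^ 2 / T := by
        rw [Real.rpow_sub hz0, hTdef, hδd]
        norm_cast
      rw [this]
      ring
    rw [hz2δ]
    apply Real.sqrt_le_iff.2
    refine ⟨by positivity, ?_⟩
    rw [div_pow, le_div_iff₀ (by positivity)]
    have t1 : (z : ℝ) ^ 6 * (a * b) * T ^ 2 ≤ (z : ℝ) ^ 4 * (a * b) ^ 2 / 4 := by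
      have h1 : 0 ≤ (z : ℝ) ^ 4 * (a * b) := by positivity
      have := mul_le_mul_of_nonneg_left hab h1
      linarith
    have t2 : (z : ℝ) ^ 4 * (K ^ 2 + 1) * (a * b ^ 2) * T ^ 2 ≤ (z : ℝ) ^ 4 * (a * b) ^ 2 / 4 := by
      have h1 : 0 ≤ (z : ℝ) ^ 4 * (a * b ^ 2) := by positivity
      have := mul_le_mul_of_nonneg_left (hb1 a hA1) h1
      linarith
    have t3 : (z : ℝ) ^ 4 * K ^ 2 * (a ^ 2 * b) * T ^ 2 ≤ (z : ℝ) ^ 4 * (a * b) ^ 2 / 4 := by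
      have h1 : 0 ≤ (z : ℝ) ^ 4 * (a ^ 2 * b) := by positivity
      have h2 := mul_le_mul_of_nonneg_left (hb1 b hB1) h1
      have h3 : 0 ≤ (z : ℝ) ^ 4 * (a ^ 2 * b) * T ^ 2 := by positivity
      linarith
    have t4 : (z : ℝ) ^ 2 * (K ^ 2 * (K ^ 2 + 1)) * (a * b) ^ 2 * T ^ 2 ≤
        (z : ℝ) ^ 4 * (a * b) ^ 2 / 4 := by
      have h1 : 0 ≤ (z : ℝ) ^ 2 * (a * b) ^ 2 := by positivity
      have := mul_le_mul_of_nonneg_left hKK h1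
      linarith
    have e1 : ((z : ℝ) ^ 2 * a + K ^ 2 * a ^ 2) *
        ((z : ℝ) ^ 4 * b + (z : ℝ) ^ 2 * (K ^ 2 + 1) * b ^ 2) * T ^ 2 =
        (z : ℝ) ^ 6 * (a * b) * T ^ 2 + (z : ℝ) ^ 4 * (K ^ 2 + 1) * (a * b ^ 2) * T ^ 2 +
        (z : ℝ) ^ 4 * K ^ 2 * (a ^ 2 * b) * T ^ 2 +
        (z : ℝ) ^ 2 * (K ^ 2 * (K ^ 2 + 1)) * (a * b) ^ 2 * T ^ 2 := by ring
    rw [e1]
    have e2 : ((z : ℝ) ^ 2 * (a * b)) ^ 2 = (z : ℝ) ^ 4 * (a * b) ^ 2 := by ring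
    rw [e2]
    linarith
  · -- the pairs with sum zero
    have h1 : #((A ×ˢ B).filter (fun ω : ℤ × ℤ => ω.1 + ω.2 = 0)) ≤ #A := by
      apply card_le_card_of_injOn (fun ω => ω.1)
      · intro ω hω
        simp only [Finset.coe_filter, Set.mem_ofPred_eq, mem_product] at hω
        exact hω.1.1
      · intro ω hω ω' hω' h
        simp only [Finset.coe_filter, Set.mem_ofPred_eq, mem_product] at hω hω'
        simp only at h
        apply Prod.ext h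
        linarith [hω.2, hω'.2]
    have h1' : (#((A ×ˢ B).filter (fun ω : ℤ × ℤ => ω.1 + ω.2 = 0)) : ℝ) ≤ a :=
      Nat.cast_le.2 h1
    refine h1'.trans ?_
    rw [hcard]
    have hbT : T ≤ b := by
      have h2 := hb1 b hB1
      have h3 : T ≤ 4 * (K ^ 2 + 1) * T ^ 2 := by
        have h4 : 0 ≤ K ^ 2 * T ^ 2 := by positivity
        have h5 : T ≤ T ^ 2 := le_self_pow₀ (by linarith) (by norm_num)
        linarith
      linarith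
    have h3 : (z : ℝ) ^ (-δ) = T⁻¹ := by
      rw [Real.rpow_neg hz0.le]
    rw [h3]
    calc a = T⁻¹ * (a * T) := by field_simp
      _ ≤ T⁻¹ * (a * b) := by gcongr
  · intro ω hω h0
    rw [mem_product] at hω
    have h1 := pf_card (ω.1 + ω.2) h0 u hu1 (by
      push_cast
      have h1 := abs_add_le (ω.1 : ℝ) (ω.2 : ℝ)
      have h2 := hA ω.1 hω.1
      have h3 := hB ω.2 hω.2
      linarith)
    refine h1.trans ?_
    -- `K ≤ z ^ (1 - δ)`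
    have h2 : K ^ 2 * T ^ 2 ≤ (z : ℝ) ^ 2 := by
      have h3 : K ^ 2 * T ^ 2 ≤ 4 * (K ^ 2 * (K ^ 2 + 1)) * T ^ 2 := by
        have h5 : 0 ≤ K ^ 2 * T ^ 2 := by positivity
        have h4 : 0 ≤ K ^ 2 * (K ^ 2 * T ^ 2) := by positivity
        linarith
      linarith
    have h3 : K * T ≤ z := by
      have : (K * T) ^ 2 ≤ (z : ℝ) ^ 2 := by rw [mul_pow]; exact h2
      exact (abs_le_of_sq_le_sq' this hz0.le).2
    have h4 : (z : ℝ) ^ (1 - δ) = z / T := by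
      rw [Real.rpow_sub hz0, Real.rpow_one]
    rw [h4, le_div_iff₀ hT0]
    exact h3

end Pool.Agent.K6.H61.AF
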